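import Pool.Agent.Helper914.Iversen.Dom

set_option autoImplicit false
open Complex Metric Filter Topology

namespace Pool.Agent.Helper914.Iversen
namespace Sys
variable {K : Set ℂ} (S : Sys K)

/-- the solution sets cluster at the poles -/
lemma dense {δ : ℝ} (hδ : 0 < δ) : ∃ N, ∀ n ≥ N, ∀ y ∈ S.Z n, ∃ i < n, ‖y - S.a i‖ < δ := by
  by_contra hcon
  push Not at hcon
  have h1 : ∀ N, ∃ n ≥ N, ∀ i < n, δ ≤ ‖S.a n - S.a i‖ := by
    intro N
    obtain ⟨n, hn, y, hy, h2⟩ := hcon (max N 1)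
    have hn1 : 1 ≤ n := (le_max_right _ _).trans hn
    refine ⟨n, (le_max_left _ _).trans hn, ?_⟩
    intro i hi
    have hne : (S.a '' {i | i < n}).Nonempty := ⟨S.a 0, 0, by simp; omega, rfl⟩
    have h3 : δ ≤ infDist y (S.a '' {i | i < n}) := by
      rw [le_infDist hne]
      rintro _ ⟨j, hj, rfl⟩
      rw [dist_eq_norm]; exact h2 j hj
    have h4 := S.far n y hy
    have h5 : infDist (S.a n) (S.a '' {i | i < n}) ≤ dist (S.a n) (S.a i) :=
      infDist_le_dist_of_mem ⟨i, hi, rfl⟩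
    rw [dist_eq_norm] at h5
    linarith
  have h2 : ∃ᶠ n in atTop, ∀ i < n, δ ≤ ‖S.a n - S.a i‖ := by
    rw [frequently_atTop]
    exact h1
  obtain ⟨φ, hφ, hφ2⟩ := extraction_of_frequently_atTop h2
  have hb : ∀ k, S.a (φ k) ∈ closedBall (0 : ℂ) 1 := by
    intro k
    rw [mem_closedBall_zero_iff]
    linarith [S.a_small (φ k)]
  obtain ⟨x, -, ψ, hψ, hlim⟩ := (isCompact_closedBall (0 : ℂ) 1).tendsto_subseq hb
  have hc := hlim.cauchySeq
  obtain ⟨N, hN⟩ := Metric.cauchySeq_iff.1 hc δ hδ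
  have h3 := hN (N + 1) (by omega) N le_rfl
  simp only [Function.comp] at h3
  have h4 := hφ2 (ψ (N + 1)) (φ (ψ N)) (hφ (hψ (Nat.lt_succ_self N)))
  rw [dist_eq_norm] at h3
  linarith

lemma r_pow_le {n m : ℕ} (hm : n ≤ m) : S.r m ≤ (1 / 2 ^ (n + 6)) ^ (n + 1) * (1 / 2 ^ (m + 6)) := by
  have hd := S.d_pos m
  have h1 : S.d m ≤ 1 := (S.d_le64 m).trans (by norm_num)
  rw [S.r_eq]
  have h3 : S.d m ≤ 1 / 2 ^ (n + 6) := by
    refine (S.d_le m).trans ?_
    apply one_div_le_one_div_of_le (by positivity)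
    exact pow_le_pow_right₀ (by norm_num) (by omega)
  calc S.d m ^ (m + 2) / 2 ^ m ≤ S.d m ^ (m + 2) :=
        div_le_self (by positivity) (one_le_pow₀ (by norm_num))
    _ ≤ S.d m ^ (n + 2) := pow_le_pow_of_le_one hd.le h1 (by omega)
    _ = S.d m ^ (n + 1) * S.d m := by rw [← pow_succ]
    _ ≤ _ := by
      apply mul_le_mul _ (S.d_le m) hd.le (by positivity)
      exact pow_le_pow_left₀ hd.le h3 _

/-- `F` omits `K` on `V` -/
theorem omits {z : ℂ} (hz : z ∈ S.V) : S.F z ∉ K := by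
  intro hw
  obtain ⟨δ, hδ, hδ1, hδ2⟩ := S.exists_delta hz.2
  have hne : ∀ i, z ≠ S.a i := by
    intro i h
    have := hδ2 i
    rw [h, sub_self, norm_zero] at this
    linarith
  obtain ⟨N1, hN1⟩ := S.dense (show 0 < δ / 2 by positivity)
  obtain ⟨N2, hN2⟩ := exists_small (show 0 < δ ^ 2 / 6 by positivity)
  set n := max N1 N2 with hn
  have hz2 : ‖z‖ ≤ 2 := by
    have : ‖z‖ < 2 := by simpa using hz.1
    exact this.le
  obtain ⟨x, hx, hxz⟩ := S.root n z (S.F z) hw hz2 (fun i _ => hne i)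
  have ht : ‖S.F z - Fs S.a S.r n z‖ ≤ (1 / 2 ^ (n + 6)) ^ (n + 1) / δ / 2 ^ (n + 5) := by
    apply S.tail
    intro m hm
    rw [norm_div, norm_real, Real.norm_of_nonneg (S.r_pos m).le]
    calc S.r m / ‖z - S.a m‖ ≤ S.r m / δ := by
          apply div_le_div_of_nonneg_left (S.r_pos m).le hδ (hδ2 m)
      _ ≤ (1 / 2 ^ (n + 6)) ^ (n + 1) * (1 / 2 ^ (m + 6)) / δ := by
          gcongr; exact S.r_pow_le hm
      _ = _ := by ring
  rw [norm_sub_rev] at ht
  have h1 : ‖z - x‖ ^ (n + 1) < (δ / 2) ^ (n + 1) := by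
    have h2 : (1 : ℝ) / 2 ^ n < δ ^ 2 / 6 := hN2 n (le_max_right _ _)
    have h3 : (3 : ℝ) / 2 ^ (n + 6) < δ * (δ / 2) := by
      have h4 : (3 : ℝ) / 2 ^ (n + 6) ≤ 3 * (1 / 2 ^ n) := by
        rw [div_eq_mul_one_div]
        gcongr
        · norm_num
        · omega
      nlinarith
    calc ‖z - x‖ ^ (n + 1) ≤ 3 ^ n * ((1 / 2 ^ (n + 6)) ^ (n + 1) / δ / 2 ^ (n + 5)) :=
          hxz.trans (by gcongr)
      _ ≤ 3 ^ (n + 1) * ((1 / 2 ^ (n + 6)) ^ (n + 1) / δ) := by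
          apply mul_le_mul (pow_le_pow_right₀ (by norm_num) (by omega)) _ (by positivity)
            (by positivity)
          exact div_le_self (by positivity) (one_le_pow₀ (by norm_num))
      _ = (3 / 2 ^ (n + 6)) ^ (n + 1) / δ := by
          rw [div_pow, div_pow, one_pow]; ring
      _ < (δ * (δ / 2)) ^ (n + 1) / δ := by
          gcongr
      _ = δ ^ n * (δ / 2) ^ (n + 1) := by
          rw [mul_pow, pow_succ δ n]; field_simp
      _ ≤ 1 * (δ / 2) ^ (n + 1) := by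
          gcongr
          exact pow_le_one₀ hδ.le hδ1
      _ = _ := one_mul _
  have h2 : ‖z - x‖ < δ / 2 := lt_of_pow_lt_pow_left₀ _ (by positivity) h1
  obtain ⟨i, -, hi⟩ := hN1 n (le_max_left _ _) x hx
  have h3 : ‖z - S.a i‖ ≤ ‖z - x‖ + ‖x - S.a i‖ := by
    have := norm_add_le (z - x) (x - S.a i); simpa using this
  have := hδ2 i
  linarith

/-- witnesses near the `n`-th hole -/
theorem witness (hK : ∀ w ∈ K, ‖w‖ ≤ 1 / 16) {n : ℕ} (hn : 6 ≤ n) {w : ℂ} (hw : w ∈ K) :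
    ∃ y ∈ S.V, ‖y - S.a n‖ ≤ S.d n ∧ ‖S.F y - w‖ ≤ 2 / 2 ^ n := by
  obtain ⟨y, h1, h2, h3, h4⟩ := S.wit n w hw
  have h4' : ∀ x ∈ S.Z (n + 1), 2 * S.t (n + 1) ≤ ‖y - x‖ := by
    intro x hx; rw [norm_sub_rev]; exact h4 x hx
  have h5 := S.tail_t h4'
  have h6 : S.t (n + 1) ≤ 1 / 2 ^ n := by
    refine (S.t_le (n + 1)).trans ?_
    apply one_div_le_one_div_of_le (by positivity)
    exact pow_le_pow_right₀ (by norm_num) (by omega)
  have h64 : (1 : ℝ) / 2 ^ n ≤ 1 / 64 := by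
    apply one_div_le_one_div_of_le (by norm_num)
    calc (64 : ℝ) = 2 ^ 6 := by norm_num
      _ ≤ 2 ^ n := pow_le_pow_right₀ (by norm_num) hn
  have htp := S.t_pos (n + 1)
  have h7 : ‖S.F y - w‖ ≤ ‖S.F y - Fs S.a S.r (n + 1) y‖ + ‖Fs S.a S.r (n + 1) y - w‖ := by
    have := norm_add_le (S.F y - Fs S.a S.r (n + 1) y) (Fs S.a S.r (n + 1) y - w); simpa using this
  have h8 : ‖S.F y - w‖ ≤ 2 / 2 ^ n := by
    have : (2 : ℝ) / 2 ^ n = 1 / 2 ^ n + 1 / 2 ^ n := by ring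
    linarith
  refine ⟨y, ⟨?_, ?_⟩, h1, h8⟩
  · rw [mem_ball_zero_iff]
    have h9 : ‖y‖ ≤ ‖y - S.a n‖ + ‖S.a n‖ := by simpa using norm_add_le (y - S.a n) (S.a n)
    have := S.a_small n
    have := S.d_le64 n
    linarith
  · intro hE
    rcases S.E_sub (n + 1) hE with h9 | h9
    · simp only [Set.mem_iUnion] at h9
      obtain ⟨i, hi, h10⟩ := h9
      rw [mem_closedBall, dist_eq_norm] at h10
      have h11 := S.r_pos i
      have h12 := S.F_collar (n := i) (z := y) (by linarith) (h2 i (Finset.mem_range.1 hi))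
      have h13 : ‖S.F y‖ ≤ ‖S.F y - w‖ + ‖w‖ := by simpa using norm_add_le (S.F y - w) w
      have h14 := hK w hw
      have h15 : (2 : ℝ) / 2 ^ n ≤ 2 / 64 := by
        have : (2 : ℝ) / 2 ^ n = 2 * (1 / 2 ^ n) := by ring
        rw [this]; linarith
      linarith
    · exact S.not_cthick h4' h9

/-- the annulus around a hole is in `V` -/
lemma annulus {n : ℕ} {z : ℂ} (h1 : S.r n < ‖z - S.a n‖) (h2 : ‖z - S.a n‖ ≤ 3 * S.r n) :
    z ∈ S.V := by
  have hr := S.r_le' n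
  have hd := S.d_le64 n
  have hrp := S.r_pos n
  refine ⟨?_, ?_⟩
  · rw [mem_ball_zero_iff]
    have h9 : ‖z‖ ≤ ‖z - S.a n‖ + ‖S.a n‖ := by simpa using norm_add_le (z - S.a n) (S.a n)
    have := S.a_small n
    linarith
  · intro hE
    rcases S.E_sub (n + 1) hE with h9 | h9
    · simp only [Set.mem_iUnion] at h9
      obtain ⟨i, hi, h10⟩ := h9
      rw [mem_closedBall, dist_eq_norm] at h10
      rcases Nat.lt_succ_iff_lt_or_eq.1 (Finset.mem_range.1 hi) with h11 | h11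
      · obtain ⟨y, hy, h12⟩ := S.near' (n := i + 1) (m := n) h11 (S.mem n)
        have h13 := S.sep i y hy z (by have := S.r_pos i; linarith)
        have h14 := S.d_le_t (n := i + 1) (m := n) h11
        have h15 := S.t_pos (i + 1)
        have h16 : ‖y - z‖ ≤ ‖y - S.a n‖ + ‖S.a n - z‖ := by
          have := norm_add_le (y - S.a n) (S.a n - z); simpa using this
        rw [norm_sub_rev y (S.a n), norm_sub_rev (S.a n) z] at h16
        linarith
      · subst h11; linarith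
    · apply S.not_cthick _ h9
      intro y hy
      rw [norm_sub_rev]
      exact S.sep n y hy z h2

/-- points of `E` outside the holes are limits of holes of large index -/
lemma limit_pole {z : ℂ} (hz : z ∈ S.E) (hz' : ∀ j, S.r j < ‖z - S.a j‖) {ρ : ℝ} (hρ : 0 < ρ)
    (N : ℕ) : ∃ j ≥ N, ‖z - S.a j‖ < ρ := by
  -- a common lower bound for the distances to the first `N` poles
  have h1 : ∀ N : ℕ, ∃ δ : ℝ, 0 < δ ∧ ∀ i < N, δ ≤ ‖z - S.a i‖ := by
    intro N
    induction N with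
    | zero => exact ⟨1, one_pos, fun i hi => by omega⟩
    | succ N ih =>
      obtain ⟨δ, hδ, h⟩ := ih
      have h2 : 0 < ‖z - S.a N‖ := (S.r_pos N).trans (hz' N)
      refine ⟨min δ ‖z - S.a N‖, lt_min hδ h2, ?_⟩
      intro i hi
      rcases Nat.lt_succ_iff_lt_or_eq.1 hi with h3 | h3
      · exact (min_le_left _ _).trans (h i h3)
      · subst h3; exact min_le_right _ _
  obtain ⟨δ, hδ, h⟩ := h1 N
  set δ' := min δ ρ with hδ'
  have hδp : 0 < δ' := lt_min hδ hρ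
  obtain ⟨N1, hN1⟩ := S.dense (show 0 < δ' / 2 by positivity)
  obtain ⟨N2, hN2⟩ := exists_small (show 0 < δ' / 2 by positivity)
  set n := max N1 N2 with hn
  rcases S.E_sub n hz with h9 | h9
  · simp only [Set.mem_iUnion] at h9
    obtain ⟨i, hi, h10⟩ := h9
    rw [mem_closedBall, dist_eq_norm] at h10
    have := hz' i
    linarith
  · have h10 := cthickening_subset_thickening' (δ₁ := S.t n / 16) (δ₂ := S.t n)
      (S.t_pos n) (by have := S.t_pos n; linarith) (S.Z n) h9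
    rw [mem_thickening_iff] at h10
    obtain ⟨y, hy, h11⟩ := h10
    rw [dist_eq_norm] at h11
    obtain ⟨i, -, hi⟩ := hN1 n (le_max_left _ _) y hy
    have h12 : S.t n < δ' / 2 := by
      have h13 := hN2 (n + 6) (by have := le_max_right N1 N2; omega)
      exact (S.t_le n).trans_lt h13
    have h13 : ‖z - S.a i‖ ≤ ‖z - y‖ + ‖y - S.a i‖ := by
      have := norm_add_le (z - y) (y - S.a i); simpa using this
    have h14 : ‖z - S.a i‖ < δ' := by linarith
    refine ⟨i, ?_, h14.trans_le (min_le_right _ _)⟩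
    by_contra hcon
    push Not at hcon
    have h15 := h i hcon
    have h16 : δ' ≤ δ := min_le_left _ _
    linarith

end Sys
end Pool.Agent.Helper914.Iversen
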