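import Pool.Agent.Helper914.Iversen.Step
import Mathlib.Probability.ProductMeasure

set_option autoImplicit false
open Complex Metric MeasureTheory Filter Topology
open scoped ENNReal

namespace Pool.Agent.Helper914.Iversen

/-- The logarithmic kernel `log⁺ (1 / |z - w|)`, with value `∞` on the diagonal. -/
noncomputable def logKernel (z w : ℂ) : ℝ≥0∞ :=
  open Classical in if z = w then ⊤ else ENNReal.ofReal (Real.log (1 / ‖z - w‖))

namespace Cantor

noncomputable def c (k : ℕ) : ℝ := (1 / 2) ^ ((k + 1) ^ 2 + 5)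

lemma c_pos (k : ℕ) : 0 < c k := by unfold c; positivity

lemma c_le (k : ℕ) : c k ≤ (1 / 2) ^ (k + 6) := by
  unfold c
  apply pow_le_pow_of_le_one (by norm_num) (by norm_num)
  nlinarith

lemma c_add (k i : ℕ) : c (k + 1 + i) ≤ c k / 8 * (1 / 2) ^ i := by
  unfold c
  have e : (1 / 2 : ℝ) ^ ((k + 1) ^ 2 + 5) / 8 * (1 / 2) ^ i = (1 / 2) ^ ((k + 1) ^ 2 + 5 + 3 + i) := by
    rw [pow_add _ ((k + 1) ^ 2 + 5 + 3) i, pow_add _ ((k + 1) ^ 2 + 5) 3]; norm_num; ring
  rw [e]
  apply pow_le_pow_of_le_one (by norm_num) (by norm_num)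
  have e2 : (k + 1 + i + 1) ^ 2 = (k + 1) ^ 2 + 2 * (k * i) + 2 * k + i * i + 4 * i + 3 := by ring
  rw [e2]
  generalize k * i = u
  generalize i * i = v
  omega

lemma c_add' (k i : ℕ) : c (k + i) ≤ c k * (1 / 2) ^ i := by
  unfold c
  rw [← pow_add]
  apply pow_le_pow_of_le_one (by norm_num) (by norm_num)
  have e2 : (k + i + 1) ^ 2 = (k + 1) ^ 2 + 2 * (k * i) + 2 * i + i * i := by ring
  rw [e2]
  generalize k * i = u
  generalize i * i = v
  omega

noncomputable def term (ε : ℕ → Bool) (k : ℕ) : ℝ := if ε k then c k else 0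

lemma term_nonneg (ε : ℕ → Bool) (k : ℕ) : 0 ≤ term ε k := by
  unfold term; split_ifs; exacts [(c_pos k).le, le_rfl]

lemma term_le (ε : ℕ → Bool) (k : ℕ) : term ε k ≤ c k := by
  unfold term; split_ifs; exacts [le_rfl, (c_pos k).le]

lemma summable_c : Summable c := by
  apply Summable.of_nonneg_of_le (fun k => (c_pos k).le) c_le
  exact (summable_nat_add_iff 6).2 (summable_geometric_of_lt_one (by norm_num) (by norm_num))

lemma summable_term (ε : ℕ → Bool) : Summable (term ε) :=
  Summable.of_nonneg_of_le (term_nonneg ε) (term_le ε) summable_c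

noncomputable def xr (ε : ℕ → Bool) : ℝ := ∑' k, term ε k

noncomputable def x (ε : ℕ → Bool) : ℂ := (xr ε : ℂ)

lemma continuous_xr : Continuous xr := by
  unfold xr
  apply continuous_tsum (u := c)
  · intro i
    unfold term
    have h : Continuous (fun b : Bool => if b = true then c i else (0 : ℝ)) := continuous_of_discreteTopology
    exact h.comp (continuous_apply i)
  · exact summable_c
  · intro n ε
    rw [Real.norm_of_nonneg (term_nonneg ε n)]
    exact term_le ε n

lemma continuous_x : Continuous x := continuous_ofReal.comp continuous_xr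

def K : Set ℂ := Set.range x

lemma K_cpt : IsCompact K := isCompact_range continuous_x

lemma xr_bd (ε : ℕ → Bool) : 0 ≤ xr ε ∧ xr ε ≤ 1 / 16 := by
  refine ⟨tsum_nonneg (term_nonneg ε), ?_⟩
  have h1 : HasSum (fun k : ℕ => (1 / 32 : ℝ) * (1 / 2) ^ (k + 1)) (1 / 32) := by
    have := (hasSum_geometric_two' 1).mul_left (1 / 32 : ℝ)
    convert! this using 1
    · ext k; rw [pow_succ, one_div_pow]; field_simp
    · norm_num
  have h2 := (summable_term ε).tsum_le_tsum (g := fun k : ℕ => (1 / 32 : ℝ) * (1 / 2) ^ (k + 1)) (fun k => by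
    refine (term_le ε k).trans ((c_le k).trans (le_of_eq ?_))
    rw [pow_add, pow_add]; norm_num; ring) h1.summable
  rw [h1.tsum_eq] at h2
  unfold xr; linarith

/-- truncated tails -/
lemma tail_le {k : ℕ} {ε ε' : ℕ → Bool} (h : ∀ i < k, ε i = ε' i) : |xr ε - xr ε'| ≤ 2 * c k := by
  have hs := (summable_term ε).sub (summable_term ε')
  have e1 : xr ε - xr ε' = ∑' i, (term ε i - term ε' i) := by
    unfold xr; rw [(summable_term ε).tsum_sub (summable_term ε')]
  have e2 := hs.sum_add_tsum_nat_add k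
  have e3 : ∑ i ∈ Finset.range k, (term ε i - term ε' i) = 0 := by
    apply Finset.sum_eq_zero
    intro i hi
    unfold term
    rw [h i (Finset.mem_range.1 hi), sub_self]
  rw [e3, zero_add] at e2
  rw [e1, ← e2, ← Real.norm_eq_abs]
  have h2 : HasSum (fun i : ℕ => c k * (1 / 2) ^ i) (c k * 2) := hasSum_geometric_two.mul_left _
  have h3 := tsum_of_norm_bounded h2 (f := fun i => term ε (i + k) - term ε' (i + k)) (fun i => by
    rw [Real.norm_eq_abs, abs_le]
    have h4 := c_add' k i
    rw [add_comm k i] at h4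
    have h5 := term_nonneg ε (i + k)
    have h6 := term_nonneg ε' (i + k)
    have h7 := term_le ε (i + k)
    have h8 := term_le ε' (i + k)
    constructor <;> linarith)
  linarith

/-- separation at the first difference -/
lemma sep {k : ℕ} {ε ε' : ℕ → Bool} (h : ∀ i < k, ε i = ε' i) (hk : ε k ≠ ε' k) :
    c k / 2 ≤ |xr ε - xr ε'| := by
  have hs := (summable_term ε).sub (summable_term ε')
  have e1 : xr ε - xr ε' = ∑' i, (term ε i - term ε' i) := by
    unfold xr; rw [(summable_term ε).tsum_sub (summable_term ε')]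
  have e2 := hs.sum_add_tsum_nat_add (k + 1)
  have e3 : ∑ i ∈ Finset.range (k + 1), (term ε i - term ε' i) = term ε k - term ε' k := by
    rw [Finset.sum_range_succ, Finset.sum_eq_zero, zero_add]
    intro i hi
    unfold term
    rw [h i (Finset.mem_range.1 hi), sub_self]
  rw [e3] at e2
  have h2 : HasSum (fun i : ℕ => c k / 8 * (1 / 2) ^ i) (c k / 8 * 2) := hasSum_geometric_two.mul_left _
  have h3 := tsum_of_norm_bounded h2 (f := fun i => term ε (i + (k + 1)) - term ε' (i + (k + 1))) (fun i => by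
    rw [Real.norm_eq_abs, abs_le]
    have h4 := c_add k i
    rw [add_comm (k + 1) i] at h4
    have h5 := term_nonneg ε (i + (k + 1))
    have h6 := term_nonneg ε' (i + (k + 1))
    have h7 := term_le ε (i + (k + 1))
    have h8 := term_le ε' (i + (k + 1))
    constructor <;> linarith)
  have h4 : |term ε k - term ε' k| = c k := by
    unfold term
    have hc := c_pos k
    cases h5 : ε k <;> cases h6 : ε' k
    · simp [h5, h6] at hk
    · simp [abs_of_pos hc]
    · simp [abs_of_pos hc]
    · simp [h5, h6] at hk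
  rw [e1, ← e2]
  rw [Real.norm_eq_abs] at h3
  have h5 := abs_sub_abs_le_abs_sub (term ε k - term ε' k)
    (-(∑' i, (term ε (i + (k + 1)) - term ε' (i + (k + 1)))))
  rw [abs_neg, sub_neg_eq_add, h4] at h5
  have := c_pos k
  linarith

open Classical in
noncomputable def trunc (n : ℕ) (s : Finset (Fin n)) : ℕ → Bool :=
  fun i => if h : i < n then decide ((⟨i, h⟩ : Fin n) ∈ s) else false

lemma exists_trunc (n : ℕ) (ε : ℕ → Bool) : ∃ s : Finset (Fin n), ∀ i < n, ε i = trunc n s i := by
  classical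
  refine ⟨Finset.univ.filter (fun i : Fin n => ε i = true), ?_⟩
  intro i hi
  unfold trunc
  rw [dif_pos hi]
  simp

lemma K_kp : KP K where
  cpt := K_cpt
  ne := ⟨x (fun _ => false), ⟨_, rfl⟩⟩
  small := by
    rintro _ ⟨ε, rfl⟩
    unfold x
    rw [norm_real, Real.norm_of_nonneg (xr_bd ε).1]
    exact (xr_bd ε).2
  real := by
    rintro _ ⟨ε, rfl⟩
    unfold x
    exact ofReal_im _
  thin := by
    intro N M ε hε
    classical
    obtain ⟨n0, hn0⟩ := pow_unbounded_of_one_lt (|M| / ε ^ N) (show (1 : ℝ) < 2 by norm_num)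
    set n := max n0 N with hn
    have hnN : N ≤ n := le_max_right _ _
    have hMn : |M| ≤ ε ^ N * 2 ^ n := by
      rw [div_lt_iff₀ (by positivity)] at hn0
      have : (2 : ℝ) ^ n0 ≤ 2 ^ n := pow_le_pow_right₀ (by norm_num) (le_max_left _ _)
      have hp : 0 < ε ^ N := by positivity
      nlinarith
    refine ⟨Finset.univ.image (fun s : Finset (Fin n) => x (trunc n s)), ?_, ε / 2 ^ n, by positivity, ?_, ?_⟩
    · intro z hz
      simp only [Finset.coe_image, Set.mem_image] at hz
      obtain ⟨s, -, rfl⟩ := hz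
      exact ⟨_, rfl⟩
    · rintro _ ⟨δ, rfl⟩
      obtain ⟨s, hs⟩ := exists_trunc n δ
      refine ⟨x (trunc n s), Finset.mem_image_of_mem _ (Finset.mem_univ _), ?_⟩
      have h1 := tail_le hs
      have h2 : ‖x δ - x (trunc n s)‖ = |xr δ - xr (trunc n s)| := by
        unfold x; rw [← ofReal_sub, norm_real, Real.norm_eq_abs]
      rw [h2]
      calc |xr δ - xr (trunc n s)| * M ≤ |xr δ - xr (trunc n s)| * |M| := by
            gcongr; exact le_abs_self M
        _ ≤ (2 * c n) * (ε ^ N * 2 ^ n) := by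
          have := c_pos n
          gcongr
        _ ≤ (ε / 2 ^ n) ^ N := by
          rw [div_pow, le_div_iff₀ (by positivity)]
          have h3 : 2 * c n * 2 ^ n * (2 ^ n) ^ N ≤ 1 := by
            unfold c
            rw [one_div_pow, ← pow_mul]
            have e : 2 * (1 / (2 : ℝ) ^ ((n + 1) ^ 2 + 5)) * 2 ^ n * 2 ^ (n * N) =
                2 ^ (1 + n + n * N) / 2 ^ ((n + 1) ^ 2 + 5) := by
              rw [pow_add, pow_add]; ring
            rw [e, div_le_one (by positivity)]
            apply pow_le_pow_right₀ (by norm_num)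
            nlinarith
          calc 2 * c n * (ε ^ N * 2 ^ n) * (2 ^ n) ^ N =
                ε ^ N * (2 * c n * 2 ^ n * (2 ^ n) ^ N) := by ring
            _ ≤ ε ^ N * 1 := by gcongr
            _ = ε ^ N := mul_one _
    · have h1 : (Finset.univ.image (fun s : Finset (Fin n) => x (trunc n s))).card ≤ 2 ^ n := by
        refine Finset.card_image_le.trans ?_
        rw [Finset.card_univ, Fintype.card_finset, Fintype.card_fin]
      have h2 : ((Finset.univ.image (fun s : Finset (Fin n) => x (trunc n s))).card : ℝ) ≤ 2 ^ n := by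
        exact_mod_cast h1
      calc _ ≤ 2 ^ n * (ε / 2 ^ n) := by gcongr
        _ = ε := by field_simp

/-! ### the energy -/

noncomputable def coin : Measure Bool := (2⁻¹ : ℝ≥0∞) • (Measure.dirac true + Measure.dirac false)

lemma coin_univ : coin Set.univ = 1 := by
  simp only [coin, Measure.smul_apply, Measure.add_apply, measure_univ, smul_eq_mul]
  rw [one_add_one_eq_two]
  exact ENNReal.inv_mul_cancel (by norm_num) (by norm_num)

instance : IsProbabilityMeasure coin := ⟨coin_univ⟩

lemma coin_singleton (b : Bool) : coin {b} = 2⁻¹ := by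
  cases b <;> simp [coin]

noncomputable def μ0 : Measure (ℕ → Bool) := Measure.infinitePi (fun _ => coin)

instance : IsProbabilityMeasure μ0 := by unfold μ0; infer_instance

def cyl (ε : ℕ → Bool) (j : ℕ) : Set (ℕ → Bool) := Set.pi (Finset.range j : Finset ℕ) (fun i => {ε i})

lemma mem_cyl {ε ε' : ℕ → Bool} {j : ℕ} : ε' ∈ cyl ε j ↔ ∀ i < j, ε' i = ε i := by
  simp [cyl, Set.mem_pi]

lemma measurableSet_cyl (ε : ℕ → Bool) (j : ℕ) : MeasurableSet (cyl ε j) :=
  MeasurableSet.pi (Finset.range j).countable_toSet (fun i _ => MeasurableSet.of_discrete)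

lemma μ0_cyl (ε : ℕ → Bool) (j : ℕ) : μ0 (cyl ε j) = (2⁻¹ : ℝ≥0∞) ^ j := by
  unfold μ0 cyl
  rw [Measure.infinitePi_pi _ (fun i _ => MeasurableSet.of_discrete)]
  simp [coin_singleton]

noncomputable def wt (j : ℕ) : ℝ≥0∞ := ENNReal.ofReal ((j + 1) ^ 2 + 6)

lemma kern_le (ε ε' : ℕ → Bool) :
    logKernel (x ε) (x ε') ≤ ∑' j, (cyl ε j).indicator (fun _ => wt j) ε' := by
  classical
  by_cases hne : ε = ε'
  · subst hne
    have h1 : ∀ j, (cyl ε j).indicator (fun _ => wt j) ε = wt j := by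
      intro j
      rw [Set.indicator_of_mem]
      rw [mem_cyl]; intro i _; rfl
    simp_rw [h1]
    have h2 : (⊤ : ℝ≥0∞) ≤ ∑' j, wt j := by
      have h3 : ∑' _ : ℕ, (1 : ℝ≥0∞) = ⊤ := ENNReal.tsum_const_eq_top_of_ne_zero one_ne_zero
      rw [← h3]
      apply ENNReal.tsum_le_tsum
      intro j
      unfold wt
      rw [← ENNReal.ofReal_one]
      apply ENNReal.ofReal_le_ofReal
      nlinarith [sq_nonneg ((j : ℝ) + 1)]
    exact le_top.trans h2
  · have hex : ∃ k, ε k ≠ ε' k := by
      by_contra hcon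
      push Not at hcon
      exact hne (funext hcon)
    set k := Nat.find hex with hk
    have hk1 : ε k ≠ ε' k := Nat.find_spec hex
    have hk2 : ∀ i < k, ε i = ε' i := by
      intro i hi
      have := Nat.find_min hex hi
      push Not at this
      exact this
    have h1 := sep hk2 hk1
    have hc := c_pos k
    have h2 : ‖x ε - x ε'‖ = |xr ε - xr ε'| := by
      unfold x; rw [← ofReal_sub, norm_real, Real.norm_eq_abs]
    have hx : x ε ≠ x ε' := by
      intro h
      rw [h, sub_self, norm_zero] at h2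
      linarith
    calc logKernel (x ε) (x ε') = ENNReal.ofReal (Real.log (1 / ‖x ε - x ε'‖)) := by
          unfold logKernel; rw [if_neg hx]
      _ ≤ wt k := by
        unfold wt
        apply ENNReal.ofReal_le_ofReal
        rw [h2]
        have h3 : 1 / |xr ε - xr ε'| ≤ 2 ^ ((k + 1) ^ 2 + 6) := by
          calc 1 / |xr ε - xr ε'| ≤ 1 / (c k / 2) := one_div_le_one_div_of_le (by positivity) h1
            _ = 2 ^ ((k + 1) ^ 2 + 6) := by
              unfold c; rw [one_div_pow]; field_simp; ring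
        calc Real.log (1 / |xr ε - xr ε'|) ≤ Real.log (2 ^ ((k + 1) ^ 2 + 6)) := by
              apply Real.log_le_log _ h3
              have : 0 < |xr ε - xr ε'| := by linarith
              positivity
          _ = (((k + 1) ^ 2 + 6 : ℕ) : ℝ) * Real.log 2 := by rw [Real.log_pow]
          _ ≤ (((k + 1) ^ 2 + 6 : ℕ) : ℝ) * 1 := by
            gcongr
            have := Real.log_two_lt_d9
            linarith
          _ = (k + 1) ^ 2 + 6 := by push_cast; ring
      _ = (cyl ε k).indicator (fun _ => wt k) ε' := by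
        rw [Set.indicator_of_mem]
        rw [mem_cyl]; intro i hi; exact (hk2 i hi).symm
      _ ≤ _ := ENNReal.le_tsum k

lemma sum_fin : ∑' j, wt j * (2⁻¹ : ℝ≥0∞) ^ j < ⊤ := by
  have h1 : Summable (fun j : ℕ => (((j : ℝ) + 1) ^ 2 + 6) * (1 / 2) ^ j) := by
    have h2 := summable_pow_mul_geometric_of_norm_lt_one 2 (r := (1 / 2 : ℝ)) (by norm_num)
    have h3 := summable_pow_mul_geometric_of_norm_lt_one 1 (r := (1 / 2 : ℝ)) (by norm_num)
    have h4 := summable_pow_mul_geometric_of_norm_lt_one 0 (r := (1 / 2 : ℝ)) (by norm_num)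
    refine ((h2.add (h3.mul_left 2)).add (h4.mul_left 7)).congr (fun j => ?_)
    ring
  have h2 : ∀ j : ℕ, wt j * (2⁻¹ : ℝ≥0∞) ^ j = ENNReal.ofReal ((((j : ℝ) + 1) ^ 2 + 6) * (1 / 2) ^ j) := by
    intro j
    unfold wt
    rw [ENNReal.ofReal_mul (by positivity), ENNReal.ofReal_pow (by norm_num)]
    congr 2
    rw [one_div, ENNReal.ofReal_inv_of_pos (by norm_num)]
    simp
  simp_rw [h2]
  exact h1.tsum_ofReal_lt_top

/-- the measure on the Cantor set -/
noncomputable def μ : Measure ℂ := μ0.map x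

instance : IsProbabilityMeasure μ := by
  unfold μ
  exact Measure.isProbabilityMeasure_map continuous_x.measurable.aemeasurable

lemma μ_compl : μ Kᶜ = 0 := by
  unfold μ
  rw [Measure.map_apply continuous_x.measurable K_cpt.isClosed.measurableSet.compl]
  have : x ⁻¹' Kᶜ = ∅ := by
    ext ε; simp [K]
  rw [this, measure_empty]

theorem energy : ∫⁻ z, ∫⁻ w, logKernel z w ∂μ ∂μ < ⊤ := by
  have h1 : ∀ z : ℂ, ∫⁻ w, logKernel z w ∂μ ≤ ∫⁻ ε', logKernel z (x ε') ∂μ0 :=
    fun z => lintegral_map_le _ _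
  have h2 : ∀ ε : ℕ → Bool, ∫⁻ ε', logKernel (x ε) (x ε') ∂μ0 ≤ ∑' j, wt j * (2⁻¹ : ℝ≥0∞) ^ j := by
    intro ε
    calc ∫⁻ ε', logKernel (x ε) (x ε') ∂μ0
        ≤ ∫⁻ ε', ∑' j, (cyl ε j).indicator (fun _ => wt j) ε' ∂μ0 := lintegral_mono (fun ε' => kern_le ε ε')
      _ = ∑' j, ∫⁻ ε', (cyl ε j).indicator (fun _ => wt j) ε' ∂μ0 := by
        rw [lintegral_tsum]
        intro j
        exact (measurable_const.indicator (measurableSet_cyl ε j)).aemeasurable
      _ = ∑' j, wt j * (2⁻¹ : ℝ≥0∞) ^ j := by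
        congr 1; ext j
        rw [lintegral_indicator (measurableSet_cyl ε j), setLIntegral_const, μ0_cyl]
  calc ∫⁻ z, ∫⁻ w, logKernel z w ∂μ ∂μ ≤ ∫⁻ z, ∫⁻ ε', logKernel z (x ε') ∂μ0 ∂μ := lintegral_mono h1
    _ ≤ ∫⁻ ε, ∫⁻ ε', logKernel (x ε) (x ε') ∂μ0 ∂μ0 := lintegral_map_le _ _
    _ ≤ ∫⁻ _, ∑' j, wt j * (2⁻¹ : ℝ≥0∞) ^ j ∂μ0 := lintegral_mono h2
    _ = ∑' j, wt j * (2⁻¹ : ℝ≥0∞) ^ j := by simp
    _ < ⊤ := sum_fin

end Cantor
end Pool.Agent.Helper914.Iversen
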