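import Pool.Agent.Helper914.Iversen.Seq

set_option autoImplicit false
open Complex Metric Filter Topology

namespace Pool.Agent.Helper914.Iversen
namespace Sys
variable {K : Set ℂ} (S : Sys K)

def E : Set ℂ := closure (⋃ j, closedBall (S.a j) (S.r j))
def V : Set ℂ := ball 0 2 \ S.E
noncomputable def F (z : ℂ) : ℂ := z + ∑' j, (S.r j : ℂ) / (z - S.a j)

lemma r_pos (n : ℕ) : 0 < S.r n := by
  rw [S.r_eq]; have := S.d_pos n; positivity

lemma d_le64 (n : ℕ) : S.d n ≤ 1 / 64 := by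
  refine (S.d_le n).trans ?_
  apply one_div_le_one_div_of_le (by norm_num)
  calc (64 : ℝ) = 2 ^ 6 := by norm_num
    _ ≤ 2 ^ (n + 6) := pow_le_pow_right₀ (by norm_num) (by omega)

lemma t_le64 (n : ℕ) : S.t n ≤ 1 / 64 := by
  refine (S.t_le n).trans ?_
  apply one_div_le_one_div_of_le (by norm_num)
  calc (64 : ℝ) = 2 ^ 6 := by norm_num
    _ ≤ 2 ^ (n + 6) := pow_le_pow_right₀ (by norm_num) (by omega)

lemma r_le (n : ℕ) : S.r n ≤ S.d n ^ 2 := by
  have hd := S.d_pos n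
  have h1 : S.d n ≤ 1 := (S.d_le64 n).trans (by norm_num)
  rw [S.r_eq, div_le_iff₀ (by positivity)]
  calc S.d n ^ (n + 2) = S.d n ^ n * S.d n ^ 2 := by rw [pow_add]
    _ ≤ 1 * S.d n ^ 2 := by gcongr; exact pow_le_one₀ hd.le h1
    _ = S.d n ^ 2 * 1 := by ring
    _ ≤ S.d n ^ 2 * 2 ^ n := by gcongr; exact one_le_pow₀ (by norm_num)

lemma r_le' (n : ℕ) : S.r n ≤ S.d n / 64 := by
  have h1 := S.r_le n
  have h2 := S.d_le64 n
  have h3 := S.d_pos n
  nlinarith

lemma near {n : ℕ} : ∀ m, n ≤ m → ∀ z ∈ S.Z m, ∃ y ∈ S.Z n, ‖z - y‖ ≤ S.t n * (1 / 32 - 1 / 2 ^ (m + 5)) := by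
  intro m hm
  induction m, hm using Nat.le_induction with
  | base =>
    intro z hz
    refine ⟨z, hz, ?_⟩
    rw [sub_self, norm_zero]
    apply mul_nonneg (S.t_pos n).le
    rw [sub_nonneg]
    apply one_div_le_one_div_of_le (by norm_num)
    calc (32 : ℝ) = 2 ^ 5 := by norm_num
      _ ≤ 2 ^ (n + 5) := pow_le_pow_right₀ (by norm_num) (by omega)
  | succ m hm ih =>
    intro z hz
    obtain ⟨y, hy, h1⟩ := S.step m z hz
    obtain ⟨x, hx, h2⟩ := ih y hy
    refine ⟨x, hx, ?_⟩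
    have h3 := S.dt n m hm
    have h4 : ‖z - x‖ ≤ ‖z - y‖ + ‖y - x‖ := by
      have := norm_add_le (z - y) (y - x); simpa using this
    have e1 : (1 : ℝ) / 2 ^ (m + 5) = 1 / 2 ^ m * (1 / 32) := by rw [pow_add]; field_simp; norm_num
    have e2 : (1 : ℝ) / 2 ^ (m + 1 + 5) = 1 / 2 ^ m * (1 / 64) := by
      rw [pow_add, pow_add]; field_simp; norm_num
    have e3 : S.t n / 2 ^ (m + 6) = S.t n * (1 / 2 ^ m * (1 / 64)) := by
      rw [pow_add]; field_simp; norm_num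
    rw [e1] at h2; rw [e3] at h3; rw [e2]
    nlinarith

lemma near' {n m : ℕ} (hm : n ≤ m) {z : ℂ} (hz : z ∈ S.Z m) : ∃ y ∈ S.Z n, ‖z - y‖ ≤ S.t n / 32 := by
  obtain ⟨y, hy, h⟩ := S.near m hm z hz
  refine ⟨y, hy, h.trans ?_⟩
  have h1 : (0 : ℝ) ≤ 1 / 2 ^ (m + 5) := by positivity
  have h2 := S.t_pos n
  nlinarith

lemma d_le_t {n m : ℕ} (hm : n ≤ m) : S.d m ≤ S.t n / 64 := by
  refine (S.dt n m hm).trans ?_
  have := S.t_pos n
  gcongr
  calc (64 : ℝ) = 2 ^ 6 := by norm_num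
    _ ≤ 2 ^ (m + 6) := pow_le_pow_right₀ (by norm_num) (by omega)

/-- distance to later poles -/
lemma far_pole {n m : ℕ} (hm : n ≤ m) {z : ℂ} (hz : ∀ y ∈ S.Z n, 2 * S.t n ≤ ‖z - y‖) :
    S.t n ≤ ‖z - S.a m‖ := by
  obtain ⟨y, hy, h⟩ := S.near' hm (S.mem m)
  have h1 := hz y hy
  have h2 : ‖z - y‖ ≤ ‖z - S.a m‖ + ‖S.a m - y‖ := by
    have := norm_add_le (z - S.a m) (S.a m - y); simpa using this
  have := S.t_pos n
  linarith

lemma term_le {n m : ℕ} (hm : n ≤ m) {z : ℂ} (hz : ∀ y ∈ S.Z n, 2 * S.t n ≤ ‖z - y‖) :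
    ‖(S.r m : ℂ) / (z - S.a m)‖ ≤ S.t n / 2 ^ (m + 6) := by
  have h1 := S.far_pole hm hz
  have ht := S.t_pos n
  have h2 := S.dt n m hm
  have hd := S.d_pos m
  have hdt := S.d_le_t hm
  rw [norm_div, norm_real, Real.norm_of_nonneg (S.r_pos m).le, div_le_iff₀ (by linarith)]
  calc S.r m ≤ S.d m ^ 2 := S.r_le m
    _ = S.d m * S.d m := by ring
    _ ≤ S.t n / 2 ^ (m + 6) * ‖z - S.a m‖ := by
      apply mul_le_mul h2 (by linarith) hd.le
      positivity

lemma term_le' {m : ℕ} {z : ℂ} (hz : S.d m ≤ ‖z - S.a m‖) :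
    ‖(S.r m : ℂ) / (z - S.a m)‖ ≤ 1 / 2 ^ (m + 6) := by
  have hd := S.d_pos m
  rw [norm_div, norm_real, Real.norm_of_nonneg (S.r_pos m).le, div_le_iff₀ (by linarith)]
  calc S.r m ≤ S.d m ^ 2 := S.r_le m
    _ = S.d m * S.d m := by ring
    _ ≤ 1 / 2 ^ (m + 6) * ‖z - S.a m‖ := by
      apply mul_le_mul (S.d_le m) hz hd.le
      positivity

lemma hasSum_geo (c : ℝ) (n : ℕ) : HasSum (fun m : ℕ => c / 2 ^ (m + n + 6)) (c / 2 ^ (n + 5)) := by
  have h := hasSum_geometric_two.mul_left (c / 2 ^ (n + 6))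
  convert! h using 1
  · ext m
    rw [one_div_pow, show m + n + 6 = (n + 6) + m by ring, pow_add]
    field_simp
  · have e : (2 : ℝ) ^ (n + 6) = 2 ^ (n + 5) * 2 := by ring
    rw [e]; field_simp

lemma tail {n : ℕ} {z : ℂ} {c : ℝ}
    (h : ∀ m, n ≤ m → ‖(S.r m : ℂ) / (z - S.a m)‖ ≤ c / 2 ^ (m + 6)) :
    ‖S.F z - Fs S.a S.r n z‖ ≤ c / 2 ^ (n + 5) := by
  have h1 : ∀ m : ℕ, ‖(S.r (m + n) : ℂ) / (z - S.a (m + n))‖ ≤ c / 2 ^ (m + n + 6) :=
    fun m => h (m + n) (by omega)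
  have hs : Summable (fun m : ℕ => (S.r (m + n) : ℂ) / (z - S.a (m + n))) :=
    Summable.of_norm_bounded (hasSum_geo c n).summable h1
  have hs' : Summable (fun m : ℕ => (S.r m : ℂ) / (z - S.a m)) :=
    (summable_nat_add_iff n).1 hs
  have e : S.F z - Fs S.a S.r n z = ∑' m : ℕ, (S.r (m + n) : ℂ) / (z - S.a (m + n)) := by
    have := hs'.sum_add_tsum_nat_add n
    unfold F Fs
    rw [← this]; ring
  rw [e]
  exact tsum_of_norm_bounded (hasSum_geo c n) h1

lemma tail_t {n : ℕ} {z : ℂ} (hz : ∀ y ∈ S.Z n, 2 * S.t n ≤ ‖z - y‖) :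
    ‖S.F z - Fs S.a S.r n z‖ ≤ S.t n / 32 := by
  refine (S.tail (c := S.t n) (fun m hm => S.term_le hm hz)).trans ?_
  have := S.t_pos n
  gcongr
  calc (32 : ℝ) = 2 ^ 5 := by norm_num
    _ ≤ 2 ^ (n + 5) := pow_le_pow_right₀ (by norm_num) (by omega)

lemma Fs_succ (a : ℕ → ℂ) (r : ℕ → ℝ) (n : ℕ) (z : ℂ) :
    Fs a r (n + 1) z = Fs a r n z + (r n : ℂ) / (z - a n) := by
  unfold Fs; rw [Finset.sum_range_succ]; ring

lemma collar {n : ℕ} {z : ℂ} (hz : ‖z - S.a n‖ ≤ 3 * S.r n) :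
    ‖S.F z - (S.r n : ℂ) / (z - S.a n)‖ ≤ 1 / 8 := by
  have h1 : ∀ y ∈ S.Z (n + 1), 2 * S.t (n + 1) ≤ ‖z - y‖ := by
    intro y hy
    have := S.sep n y hy z hz
    rwa [norm_sub_rev]
  have h2 := S.tail_t h1
  have h3 : ‖Fs S.a S.r n z‖ ≤ 3 / 32 := by
    apply S.sm
    have h4 := S.r_le' n
    have h5 := S.d_pos n
    linarith
  rw [Fs_succ] at h2
  have h4 : S.F z - (S.r n : ℂ) / (z - S.a n) =
      (S.F z - (Fs S.a S.r n z + (S.r n : ℂ) / (z - S.a n))) + Fs S.a S.r n z := by ring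
  rw [h4]
  have h5 := S.t_le64 (n + 1)
  refine (norm_add_le _ _).trans ?_
  linarith

lemma F_collar {n : ℕ} {z : ℂ} (hz : ‖z - S.a n‖ ≤ 2 * S.r n) (hne : z ≠ S.a n) :
    1 / 4 ≤ ‖S.F z‖ := by
  have hr := S.r_pos n
  have h1 := S.collar (n := n) (z := z) (by linarith)
  have h0 : 0 < ‖z - S.a n‖ := norm_pos_iff.2 (sub_ne_zero.2 hne)
  have h2 : 1 / 2 ≤ ‖(S.r n : ℂ) / (z - S.a n)‖ := by
    rw [norm_div, norm_real, Real.norm_of_nonneg hr.le, le_div_iff₀ h0]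
    linarith
  have h3 := norm_sub_norm_le ((S.r n : ℂ) / (z - S.a n)) ((S.r n : ℂ) / (z - S.a n) - S.F z)
  rw [sub_sub_cancel, norm_sub_rev ((S.r n : ℂ) / (z - S.a n)) (S.F z)] at h3
  linarith

lemma F_outer {z : ℂ} (hz : 1 ≤ ‖z‖) : 1 / 4 ≤ ‖S.F z‖ := by
  have h1 : ∀ m, 0 ≤ m → ‖(S.r m : ℂ) / (z - S.a m)‖ ≤ 1 / 2 ^ (m + 6) := by
    intro m _
    apply S.term_le'
    have h2 := norm_sub_norm_le z (S.a m)
    have h3 := S.a_small m
    have h4 := S.d_le64 m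
    linarith
  have h2 := S.tail h1
  have h3 : Fs S.a S.r 0 z = z := by simp [Fs]
  rw [h3] at h2
  have h4 := norm_sub_norm_le z (z - S.F z)
  rw [sub_sub_cancel, norm_sub_rev z (S.F z)] at h4
  norm_num at h2
  linarith

/-- the holes of large index are near `Z n` -/
lemma hole_near {n m : ℕ} (hm : n ≤ m) {z : ℂ} (hz : ‖z - S.a m‖ ≤ 3 * S.r m) :
    z ∈ cthickening (S.t n / 16) (S.Z n) := by
  obtain ⟨y, hy, h⟩ := S.near' hm (S.mem m)
  apply mem_cthickening_of_dist_le z y _ _ hy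
  rw [dist_eq_norm]
  have h2 : ‖z - y‖ ≤ ‖z - S.a m‖ + ‖S.a m - y‖ := by
    have := norm_add_le (z - S.a m) (S.a m - y); simpa using this
  have h3 := S.r_le' m
  have h4 := S.d_le_t hm
  have h5 := S.t_pos n
  linarith

lemma not_cthick {n : ℕ} {z : ℂ} (hz : ∀ y ∈ S.Z n, 2 * S.t n ≤ ‖z - y‖) :
    z ∉ cthickening (S.t n / 16) (S.Z n) := by
  intro h
  have h1 := cthickening_subset_thickening' (δ₁ := S.t n / 16) (δ₂ := S.t n)
    (S.t_pos n) (by have := S.t_pos n; linarith) (S.Z n) h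
  rw [mem_thickening_iff] at h1
  obtain ⟨y, hy, h2⟩ := h1
  rw [dist_eq_norm] at h2
  have := hz y hy
  have := S.t_pos n
  linarith

lemma union_sub (n : ℕ) : closure (⋃ j, closedBall (S.a j) (3 * S.r j)) ⊆
    (⋃ j ∈ Finset.range n, closedBall (S.a j) (3 * S.r j)) ∪ cthickening (S.t n / 16) (S.Z n) := by
  apply closure_minimal
  · intro z hz
    obtain ⟨j, hj⟩ := Set.mem_iUnion.1 hz
    rcases Nat.lt_or_ge j n with h | h
    · left
      simp only [Set.mem_iUnion]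
      exact ⟨j, Finset.mem_range.2 h, hj⟩
    · right
      rw [mem_closedBall, dist_eq_norm] at hj
      exact S.hole_near h hj
  · apply IsClosed.union
    · exact (Finset.range n).finite_toSet.isClosed_biUnion (fun j _ => isClosed_closedBall)
    · exact isClosed_cthickening

lemma E_sub (n : ℕ) : S.E ⊆
    (⋃ j ∈ Finset.range n, closedBall (S.a j) (S.r j)) ∪ cthickening (S.t n / 16) (S.Z n) := by
  apply closure_minimal
  · intro z hz
    obtain ⟨j, hj⟩ := Set.mem_iUnion.1 hz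
    rcases Nat.lt_or_ge j n with h | h
    · left
      simp only [Set.mem_iUnion]
      exact ⟨j, Finset.mem_range.2 h, hj⟩
    · right
      rw [mem_closedBall, dist_eq_norm] at hj
      have := S.r_pos j
      exact S.hole_near h (by linarith)
  · apply IsClosed.union
    · exact (Finset.range n).finite_toSet.isClosed_biUnion (fun j _ => isClosed_closedBall)
    · exact isClosed_cthickening

lemma isOpen_V : IsOpen S.V := isOpen_ball.sdiff isClosed_closure

lemma a_mem_E (j : ℕ) : S.a j ∈ S.E :=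
  subset_closure (Set.mem_iUnion.2 ⟨j, mem_closedBall_self (S.r_pos j).le⟩)

lemma hole_sub_E {j : ℕ} {z : ℂ} (h : ‖z - S.a j‖ ≤ S.r j) : z ∈ S.E :=
  subset_closure (Set.mem_iUnion.2 ⟨j, by rwa [mem_closedBall, dist_eq_norm]⟩)

lemma exists_delta {z : ℂ} (hz : z ∉ S.E) : ∃ δ : ℝ, 0 < δ ∧ δ ≤ 1 ∧ ∀ j, δ ≤ ‖z - S.a j‖ := by
  obtain ⟨ε, hε, h⟩ := Metric.isOpen_iff.1 (isClosed_closure.isOpen_compl) z (show z ∈ S.Eᶜ from hz)
  refine ⟨min ε 1, lt_min hε one_pos, min_le_right _ _, fun j => ?_⟩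
  by_contra hcon
  push Not at hcon
  have : S.a j ∈ ball z ε := by
    rw [mem_ball, dist_eq_norm, norm_sub_rev]
    exact hcon.trans_le (min_le_left _ _)
  exact h this (S.a_mem_E j)

lemma summable_r : Summable S.r := by
  apply Summable.of_nonneg_of_le (fun n => (S.r_pos n).le) _ (hasSum_geo 1 0).summable
  intro n
  have h1 := S.r_le' n
  have h2 := S.d_le n
  have h3 := S.d_pos n
  rw [add_zero]
  linarith

lemma differentiableAt_F {z : ℂ} (hz : z ∉ S.E) : DifferentiableAt ℂ S.F z := by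
  obtain ⟨δ, hδ, -, h⟩ := S.exists_delta hz
  have hb : ∀ w ∈ ball z (δ / 2), ∀ j, δ / 2 ≤ ‖w - S.a j‖ := by
    intro w hw j
    rw [mem_ball, dist_eq_norm] at hw
    have h1 := h j
    have h2 : ‖z - S.a j‖ ≤ ‖z - w‖ + ‖w - S.a j‖ := by
      have := norm_add_le (z - w) (w - S.a j); simpa using this
    rw [norm_sub_rev z w] at h2
    linarith
  have h1 : DifferentiableOn ℂ (fun w => ∑' j, (S.r j : ℂ) / (w - S.a j)) (ball z (δ / 2)) := by
    apply differentiableOn_tsum_of_summable_norm (u := fun j => S.r j / (δ / 2))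
      (S.summable_r.div_const _)
    · intro j w hw
      have h2 : w - S.a j ≠ 0 := by
        intro h0
        have := hb w hw j
        rw [h0, norm_zero] at this; linarith
      apply DifferentiableAt.differentiableWithinAt
      fun_prop (disch := exact h2)
    · exact isOpen_ball
    · intro j w hw
      rw [norm_div, norm_real, Real.norm_of_nonneg (S.r_pos j).le]
      have := hb w hw j
      gcongr
      exact (S.r_pos j).le
  have h2 := (h1 z (mem_ball_self (by positivity))).differentiableAt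
    (isOpen_ball.mem_nhds (mem_ball_self (by positivity)))
  exact differentiableAt_id.add h2

lemma differentiableOn_F : DifferentiableOn ℂ S.F S.V :=
  fun _ hz => (S.differentiableAt_F hz.2).differentiableWithinAt

lemma exists_small {δ : ℝ} (hδ : 0 < δ) : ∃ N, ∀ m ≥ N, (1 : ℝ) / 2 ^ m < δ := by
  obtain ⟨N, hN⟩ := exists_pow_lt_of_lt_one hδ (show (1 / 2 : ℝ) < 1 by norm_num)
  refine ⟨N, fun m hm => ?_⟩
  rw [← one_div_pow]
  exact (pow_le_pow_of_le_one (by norm_num) (by norm_num) hm).trans_lt hN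

lemma F_bdd {z : ℂ} (hz : z ∈ S.V) : ‖S.F z‖ ≤ 3 := by
  obtain ⟨δ, hδ, -, h⟩ := S.exists_delta hz.2
  obtain ⟨N0, hN0⟩ := exists_small hδ
  have hex : ∃ N, ∀ m ≥ N, S.d m ≤ ‖z - S.a m‖ := by
    refine ⟨N0, fun m hm => ?_⟩
    have h1 := hN0 (m + 6) (by omega)
    linarith [S.d_le m, h m]
  classical
  have hfind := Nat.find_spec hex
  have hz2 : ‖z‖ < 2 := by simpa using hz.1
  rcases hk : Nat.find hex with _ | n
  · rw [hk] at hfind
    have h2 := S.tail (n := 0) (c := 1) (fun m hm => S.term_le' (hfind m hm))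
    have h3 : Fs S.a S.r 0 z = z := by simp [Fs]
    rw [h3] at h2
    have h4 : ‖S.F z‖ ≤ ‖S.F z - z‖ + ‖z‖ := by simpa using norm_add_le (S.F z - z) z
    norm_num at h2
    linarith
  · rw [hk] at hfind
    have h5 : ‖z - S.a n‖ < S.d n := by
      by_contra hcon
      push Not at hcon
      have : ∀ m ≥ n, S.d m ≤ ‖z - S.a m‖ := by
        intro m hm
        rcases Nat.lt_or_ge n m with h6 | h6
        · exact hfind m h6
        · have : m = n := le_antisymm h6 hm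
          subst this; exact hcon
      have h7 := Nat.find_min' hex this
      omega
    have h2 := S.tail (n := n + 1) (c := 1) (fun m hm => S.term_le' (hfind m hm))
    rw [Fs_succ] at h2
    have h3 := S.sm n z h5.le
    have h6 : S.r n < ‖z - S.a n‖ := by
      by_contra hcon
      push Not at hcon
      exact hz.2 (S.hole_sub_E hcon)
    have h7 : ‖(S.r n : ℂ) / (z - S.a n)‖ ≤ 1 := by
      have := S.r_pos n
      rw [norm_div, norm_real, Real.norm_of_nonneg this.le, div_le_one (by linarith)]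
      exact h6.le
    have h8 : ‖S.F z‖ ≤ ‖S.F z - (Fs S.a S.r n z + (S.r n : ℂ) / (z - S.a n))‖ +
        (‖Fs S.a S.r n z‖ + ‖(S.r n : ℂ) / (z - S.a n)‖) := by
      have h9 := norm_add_le (S.F z - (Fs S.a S.r n z + (S.r n : ℂ) / (z - S.a n)))
        (Fs S.a S.r n z + (S.r n : ℂ) / (z - S.a n))
      rw [sub_add_cancel] at h9
      exact h9.trans (by gcongr; exact norm_add_le _ _)
    have h9 : (1 : ℝ) / 2 ^ (n + 1 + 5) ≤ 1 := by
      rw [div_le_one (by positivity)]; exact one_le_pow₀ (by norm_num)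
    linarith

end Sys
end Pool.Agent.Helper914.Iversen
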