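import Mathlib

set_option autoImplicit false
open Complex Metric MeasureTheory Filter Topology Set

namespace Pool.Agent.Helper914.Iversen

/-- twice the Cauchy–Riemann operator -/
noncomputable def D (φ : ℂ → ℂ) (z : ℂ) : ℂ := fderiv ℝ φ z 1 + I * fderiv ℝ φ z I

theorem green {φ h : ℂ → ℂ} {U : Set ℂ} (hU : IsOpen U) (hφ : ContDiff ℝ 1 φ)
    (hc : HasCompactSupport φ) (hs : tsupport φ ⊆ U) (hh : DifferentiableOn ℂ h U) :
    ∫ z, D φ z * h z = 0 := by
  have hC : ContDiffOn ℝ 1 h U := (hh.contDiffOn hU).restrict_scalars ℝ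
  have hCd : ContinuousOn (fun x => fderiv ℝ h x) U := hC.continuousOn_fderiv_of_isOpen hU le_rfl
  have hφd : Continuous (fun x => fderiv ℝ φ x) := hφ.continuous_fderiv (by norm_num)
  have hdh : ∀ x ∈ U, ∀ v : ℂ, fderiv ℝ h x v = deriv h x * v := by
    intro x hx v
    have h1 := (hh.differentiableAt (hU.mem_nhds hx)).hasDerivAt.hasFDerivAt.restrictScalars ℝ
    rw [h1.fderiv]
    simp [mul_comm]
  -- integrability
  have key : ∀ F : ℂ → ℂ, ContinuousOn F U → ∀ G : ℂ → ℂ, Continuous G → tsupport G ⊆ tsupport φ →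
      Integrable (fun x => F x * G x) := by
    intro F hF G hG hGs
    have hs1 : tsupport (fun x => F x * G x) ⊆ tsupport G := closure_mono (by
      intro x hx h0
      exact hx (by simp [h0]))
    have h1 : Continuous (fun x => F x * G x) := by
      apply continuous_of_tsupport
      intro x hx
      have hxU : x ∈ U := hs (hGs (hs1 hx))
      exact (hF.continuousAt (hU.mem_nhds hxU)).mul hG.continuousAt
    apply h1.integrable_of_hasCompactSupport
    exact hc.of_isClosed_subset (isClosed_tsupport _) (hs1.trans hGs)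
  have hi1 : ∀ v : ℂ, Integrable (fun x => h x * fderiv ℝ φ x v) := by
    intro v
    exact key h hC.continuousOn (fun x => fderiv ℝ φ x v) (by fun_prop)
      (tsupport_fderiv_apply_subset ℝ v)
  have hi2 : ∀ v : ℂ, Integrable (fun x => fderiv ℝ h x v * φ x) := by
    intro v
    exact key (fun x => fderiv ℝ h x v) (hCd.clm_apply continuousOn_const) φ hφ.continuous le_rfl
  have hi3 : Integrable (fun x => h x * φ x) := key h hC.continuousOn φ hφ.continuous le_rfl
  have hp : ∀ v : ℂ, ∫ x, h x * fderiv ℝ φ x v = - ∫ x, fderiv ℝ h x v * φ x := by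
    intro v
    apply integral_mul_fderiv_eq_neg_fderiv_mul_of_integrable (hi2 v) (hi1 v) hi3
    · intro x hx
      exact (hh.differentiableAt (hU.mem_nhds (hs hx))).restrictScalars ℝ
    · intro x _
      exact (hφ.differentiable (by norm_num)) x
  have e1 : ∫ z, D φ z * h z = (∫ x, h x * fderiv ℝ φ x 1) + I * ∫ x, h x * fderiv ℝ φ x I := by
    rw [← integral_const_mul, ← integral_add (hi1 1) ((hi1 I).const_mul I)]
    congr 1; ext z
    unfold D; ring
  rw [e1, hp 1, hp I]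
  have e2 : - (∫ x, fderiv ℝ h x 1 * φ x) + I * - ∫ x, fderiv ℝ h x I * φ x =
      - ∫ x, (fderiv ℝ h x 1 * φ x + I * (fderiv ℝ h x I * φ x)) := by
    rw [integral_add (hi2 1) ((hi2 I).const_mul I), integral_const_mul]; ring
  rw [e2, neg_eq_zero]
  have e3 : ∀ x, fderiv ℝ h x 1 * φ x + I * (fderiv ℝ h x I * φ x) = 0 := by
    intro x
    by_cases hx : x ∈ U
    · rw [hdh x hx, hdh x hx]
      have := I_mul_I
      linear_combination (deriv h x * φ x) * this
    · have : φ x = 0 := image_eq_zero_of_notMem_tsupport (fun h => hx (hs h))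
      rw [this]; simp
  simp_rw [e3]
  simp

/-! ### the bump -/

noncomputable def b (z : ℂ) : ℝ := Real.smoothTransition (3 - 2 * ‖z‖ ^ 2)

lemma b_contDiff : ContDiff ℝ 1 b :=
  Real.smoothTransition.contDiff.comp
    (contDiff_const.sub (contDiff_const.mul (contDiff_norm_sq ℝ)))

lemma b_nonneg (z : ℂ) : 0 ≤ b z := Real.smoothTransition.nonneg _
lemma b_le_one (z : ℂ) : b z ≤ 1 := Real.smoothTransition.le_one _

lemma b_one {z : ℂ} (h : ‖z‖ ≤ 1) : b z = 1 := by
  apply Real.smoothTransition.one_of_one_le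
  have := norm_nonneg z
  nlinarith

lemma b_zero {z : ℂ} (h : 5 / 4 ≤ ‖z‖) : b z = 0 := by
  apply Real.smoothTransition.zero_of_nonpos
  nlinarith

noncomputable def st' (s : ℝ) : ℝ := deriv Real.smoothTransition s

lemma st'_cont : Continuous st' := (Real.smoothTransition.contDiff (n := 1)).continuous_deriv le_rfl

lemma st'_nonneg (s : ℝ) : 0 ≤ st' s := Real.smoothTransition.monotone.deriv_nonneg

lemma st'_zero {s : ℝ} (h : s < 0 ∨ 1 < s) : st' s = 0 := by
  unfold st'
  rcases h with h | h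
  · have : Real.smoothTransition =ᶠ[𝓝 s] fun _ => 0 := by
      filter_upwards [eventually_lt_nhds h] with t ht
      exact Real.smoothTransition.zero_of_nonpos ht.le
    rw [this.deriv_eq, deriv_const]
  · have : Real.smoothTransition =ᶠ[𝓝 s] fun _ => 1 := by
      filter_upwards [eventually_gt_nhds h] with t ht
      exact Real.smoothTransition.one_of_one_le ht.le
    rw [this.deriv_eq, deriv_const]

lemma st'_exists : ∃ s : ℝ, 0 < s ∧ s < 1 ∧ st' s ≠ 0 := by
  obtain ⟨s, hs, h⟩ := exists_deriv_eq_slope Real.smoothTransition (a := 0) (b := 1) one_pos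
    Real.smoothTransition.continuous.continuousOn
    ((Real.smoothTransition.contDiff (n := 1)).differentiable (by norm_num)).differentiableOn
  refine ⟨s, hs.1, hs.2, ?_⟩
  unfold st'
  rw [h]
  simp

lemma b_fderiv (z v : ℂ) : fderiv ℝ b z v = st' (3 - 2 * ‖z‖ ^ 2) * (-4 * (z.re * v.re + z.im * v.im)) := by
  have h1 : HasFDerivAt (fun z : ℂ => ‖z‖ ^ 2) (2 • (innerSL ℝ z)) z :=
    (hasStrictFDerivAt_norm_sq z).hasFDerivAt
  have h2 : HasFDerivAt (fun z : ℂ => 3 - 2 * ‖z‖ ^ 2) (-((2 : ℝ) • (2 • (innerSL ℝ z)))) z :=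
    (h1.const_mul 2).const_sub 3
  have h3 : HasDerivAt Real.smoothTransition (st' (3 - 2 * ‖z‖ ^ 2)) (3 - 2 * ‖z‖ ^ 2) :=
    (((Real.smoothTransition.contDiff (n := 1)).differentiable (by norm_num)) _).hasDerivAt
  have h4 := h3.comp_hasFDerivAt z h2
  have h5 : fderiv ℝ b z = st' (3 - 2 * ‖z‖ ^ 2) • (-((2 : ℝ) • (2 • (innerSL ℝ z)))) := h4.fderiv
  rw [h5]
  simp only [smul_apply, neg_apply, innerSL_apply_apply,
    Complex.inner, smul_eq_mul, nsmul_eq_mul, mul_re, conj_re, conj_im]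
  push_cast
  ring

/-- complex version -/
noncomputable def cb (z : ℂ) : ℂ := (b z : ℂ)

lemma D_ofReal {f : ℂ → ℝ} {z : ℂ} (hf : DifferentiableAt ℝ f z) :
    D (fun z => (f z : ℂ)) z = (fderiv ℝ f z 1 : ℂ) + I * (fderiv ℝ f z I : ℂ) := by
  have h : HasFDerivAt (fun z => (f z : ℂ)) (ofRealCLM ∘L fderiv ℝ f z) z :=
    ofRealCLM.hasFDerivAt.comp z hf.hasFDerivAt
  unfold D
  rw [h.fderiv]
  simp

lemma D_cb (z : ℂ) : D cb z = -4 * (st' (3 - 2 * ‖z‖ ^ 2) : ℂ) * z := by
  have h := D_ofReal (f := b) (z := z) ((b_contDiff.differentiable (by norm_num)) z)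
  have h' : D cb z = D (fun z => (b z : ℂ)) z := rfl
  rw [h', h, b_fderiv, b_fderiv]
  simp only [one_re, one_im, I_re, I_im]
  push_cast
  have hz := re_add_im z
  linear_combination (-4 * (st' (3 - 2 * ‖z‖ ^ 2) : ℂ)) * hz

noncomputable def T0 : ℝ := ∫ z : ℂ, st' (3 - 2 * ‖z‖ ^ 2)

lemma T0_pos : 0 < T0 := by
  obtain ⟨s, hs0, hs1, hs⟩ := st'_exists
  unfold T0
  have hx : st' (3 - 2 * ‖((Real.sqrt ((3 - s) / 2) : ℝ) : ℂ)‖ ^ 2) ≠ 0 := by
    rw [norm_real, Real.norm_of_nonneg (Real.sqrt_nonneg _), Real.sq_sqrt (by linarith)]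
    have : 3 - 2 * ((3 - s) / 2) = s := by ring
    rw [this]; exact hs
  apply Continuous.integral_pos_of_hasCompactSupport_nonneg_nonzero (x := ((Real.sqrt ((3 - s) / 2) : ℝ) : ℂ))
  · exact st'_cont.comp (by fun_prop)
  · apply HasCompactSupport.intro (isCompact_closedBall (0 : ℂ) 2)
    intro z hz
    rw [mem_closedBall_zero_iff, not_le] at hz
    apply st'_zero
    left; nlinarith
  · intro z; exact st'_nonneg _
  · exact hx

lemma int_cb : ∫ z, D cb z * (1 / z) = -4 * (T0 : ℂ) := by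
  have h1 : ∀ z : ℂ, D cb z * (1 / z) = -4 * ((st' (3 - 2 * ‖z‖ ^ 2) : ℝ) : ℂ) := by
    intro z
    rw [D_cb]
    rcases eq_or_ne z 0 with rfl | hz
    · rw [st'_zero (s := 3 - 2 * ‖(0 : ℂ)‖ ^ 2) (by right; norm_num)]; simp
    · field_simp
  simp_rw [h1]
  rw [integral_const_mul, integral_complex_ofReal]
  rfl

lemma D_sub {f g : ℂ → ℂ} {z : ℂ} (hf : DifferentiableAt ℝ f z) (hg : DifferentiableAt ℝ g z) :
    D (fun z => f z - g z) z = D f z - D g z := by
  unfold D
  rw [fderiv_fun_sub hf hg]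
  simp only [sub_apply]
  ring

lemma D_comp_sub (f : ℂ → ℂ) (z0 z : ℂ) : D (fun z => f (z - z0)) z = D f (z - z0) := by
  unfold D
  rw [fderiv_comp_sub]

lemma cb_contDiff : ContDiff ℝ 1 cb := ofRealCLM.contDiff.comp b_contDiff

lemma cb_compact : HasCompactSupport cb := by
  apply HasCompactSupport.intro (isCompact_closedBall (0 : ℂ) (5 / 4))
  intro z hz
  rw [mem_closedBall_zero_iff, not_le] at hz
  unfold cb
  rw [b_zero hz.le, ofReal_zero]

/-- continuity of `D φ` times something singular at `z0` away from where `D φ` lives -/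
lemma integrable_D {φ h : ℂ → ℂ} {U : Set ℂ} (hU : IsOpen U) (hφ : ContDiff ℝ 1 φ)
    (hc : HasCompactSupport φ) (hs : tsupport φ ⊆ U) {z0 : ℂ} {d : ℝ} (hd : 0 < d)
    (hone : ∀ z, ‖z - z0‖ < d → φ z = 1) (hh : ContinuousOn h U) :
    Integrable (fun z => D φ z * (h z / (z - z0))) := by
  have hφd : Continuous (fun x => fderiv ℝ φ x) := hφ.continuous_fderiv (by norm_num)
  have hDc : Continuous (D φ) := by unfold D; fun_prop
  have hD0 : ∀ z, ‖z - z0‖ < d → D φ z = 0 := by
    intro z hz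
    have : φ =ᶠ[𝓝 z] fun _ => 1 := by
      have : ball z0 d ∈ 𝓝 z := isOpen_ball.mem_nhds (by rw [mem_ball, dist_eq_norm]; exact hz)
      filter_upwards [this] with w hw
      rw [mem_ball, dist_eq_norm] at hw
      exact hone w hw
    unfold D
    rw [this.fderiv_eq]; simp
  have hDs : tsupport (D φ) ⊆ tsupport φ := by
    apply closure_minimal _ (isClosed_tsupport _)
    intro z hz
    by_contra hcon
    apply hz
    unfold D
    rw [fderiv_of_notMem_tsupport ℝ hcon]; simp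
  have hs1 : tsupport (fun z => D φ z * (h z / (z - z0))) ⊆ tsupport (D φ) := closure_mono (by
    intro x hx h0
    exact hx (by simp [h0]))
  have h1 : Continuous (fun z => D φ z * (h z / (z - z0))) := by
    apply continuous_of_tsupport
    intro x hx
    have hxU : x ∈ U := hs (hDs (hs1 hx))
    rcases eq_or_ne x z0 with rfl | hne
    · have : (fun z => D φ z * (h z / (z - x))) =ᶠ[𝓝 x] fun _ => 0 := by
        filter_upwards [isOpen_ball.mem_nhds (mem_ball_self hd)] with w hw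
        rw [mem_ball, dist_eq_norm] at hw
        rw [hD0 w hw, zero_mul]
      exact continuousAt_const.congr this.symm
    · apply hDc.continuousAt.mul
      have h3 : ContinuousAt h x := hh.continuousAt (hU.mem_nhds hxU)
      have h4 : ContinuousAt (fun z : ℂ => z - z0) x := by fun_prop
      exact ContinuousAt.div h3 h4 (sub_ne_zero.2 hne)
  have h2 : HasCompactSupport (fun z => D φ z * (h z / (z - z0))) :=
    IsCompact.of_isClosed_subset hc (isClosed_tsupport _) (hs1.trans hDs)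
  exact h1.integrable_of_hasCompactSupport h2

/-- the constant does not depend on the cutoff -/
lemma T_eq {φ : ℂ → ℂ} (hφ : ContDiff ℝ 1 φ) (hc : HasCompactSupport φ) {z0 : ℂ} {d : ℝ}
    (hd : 0 < d) (hone : ∀ z, ‖z - z0‖ < d → φ z = 1) :
    ∫ z, D φ z * (1 / (z - z0)) = -4 * (T0 : ℂ) := by
  set ψ : ℂ → ℂ := fun z => cb (z - z0) with hψ
  have hψ1 : ContDiff ℝ 1 ψ := cb_contDiff.comp (by fun_prop)
  have hψc : HasCompactSupport ψ := by
    apply HasCompactSupport.intro (isCompact_closedBall z0 (5 / 4))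
    intro z hz
    rw [mem_closedBall, dist_eq_norm, not_le] at hz
    simp only [hψ, cb]
    rw [b_zero hz.le, ofReal_zero]
  have hψone : ∀ z, ‖z - z0‖ < 1 → ψ z = 1 := by
    intro z hz
    simp only [hψ, cb]
    rw [b_one hz.le, ofReal_one]
  have h1 : ∫ z, D ψ z * (1 / (z - z0)) = -4 * (T0 : ℂ) := by
    rw [← int_cb]
    have : ∀ z, D ψ z * (1 / (z - z0)) = (fun w => D cb w * (1 / w)) (z - z0) := by
      intro z
      simp only [hψ, D_comp_sub]
    simp_rw [this]
    exact integral_sub_right_eq_self (fun w => D cb w * (1 / w)) z0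
  rw [← h1, ← sub_eq_zero]
  have i1 := integrable_D isOpen_univ hφ hc (subset_univ _) hd hone (h := fun _ => 1) continuousOn_const
  have i2 := integrable_D isOpen_univ hψ1 hψc (subset_univ _) one_pos hψone (h := fun _ => 1)
    continuousOn_const
  rw [← integral_sub i1 i2]
  have h2 : ∀ z, D φ z * (1 / (z - z0)) - D ψ z * (1 / (z - z0)) =
      D (fun z => φ z - ψ z) z * (1 / (z - z0)) := by
    intro z
    rw [D_sub ((hφ.differentiable (by norm_num)) z) ((hψ1.differentiable (by norm_num)) z)]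
    ring
  simp_rw [h2]
  apply green (U := {z0}ᶜ) isOpen_compl_singleton (hφ.sub hψ1)
  · exact hc.sub hψc
  · intro z hz hz0
    rw [mem_singleton_iff] at hz0
    subst hz0
    refine notMem_tsupport_iff_eventuallyEq.2 ?_ hz
    have : ball z (min d 1) ∈ 𝓝 z := isOpen_ball.mem_nhds (mem_ball_self (lt_min hd one_pos))
    filter_upwards [this] with w hw
    rw [mem_ball, dist_eq_norm, lt_min_iff] at hw
    simp only [hone w hw.1, hψone w hw.2, sub_self, Pi.zero_apply]
  · intro z hz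
    apply DifferentiableAt.differentiableWithinAt
    have : z - z0 ≠ 0 := sub_ne_zero.2 hz
    fun_prop (disch := exact this)

theorem rep {φ h : ℂ → ℂ} {V : Set ℂ} (hV : IsOpen V) (hφ : ContDiff ℝ 1 φ)
    (hc : HasCompactSupport φ) (hs : tsupport φ ⊆ V) {z0 : ℂ} (hz0 : z0 ∈ V) {d : ℝ} (hd : 0 < d)
    (hone : ∀ z, ‖z - z0‖ < d → φ z = 1) (hh : DifferentiableOn ℂ h V) :
    ∫ z, D φ z * (h z / (z - z0)) = -4 * (T0 : ℂ) * h z0 := by
  have h1 : DifferentiableOn ℂ (dslope h z0) V :=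
    (Complex.differentiableOn_dslope (hV.mem_nhds hz0)).2 hh
  have h2 := green hV hφ hc hs h1
  have i1 := integrable_D hV hφ hc hs hd hone hh.continuousOn
  have i2 := integrable_D isOpen_univ hφ hc (subset_univ _) hd hone (h := fun _ => 1) continuousOn_const
  have hD0 : D φ z0 = 0 := by
    have : φ =ᶠ[𝓝 z0] fun _ => 1 := by
      filter_upwards [isOpen_ball.mem_nhds (mem_ball_self hd)] with w hw
      rw [mem_ball, dist_eq_norm] at hw
      exact hone w hw
    unfold D
    rw [this.fderiv_eq]; simp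
  have h3 : ∀ z, D φ z * dslope h z0 z = D φ z * (h z / (z - z0)) - h z0 * (D φ z * (1 / (z - z0))) := by
    intro z
    rcases eq_or_ne z z0 with rfl | hne
    · rw [hD0]; ring
    · rw [dslope_of_ne _ hne, slope_def_field]; ring
  simp_rw [h3] at h2
  rw [integral_sub i1 (i2.const_mul _), integral_const_mul, T_eq hφ hc hd hone] at h2
  linear_combination h2

theorem est {φ h : ℂ → ℂ} {V : Set ℂ} (hV : IsOpen V) (hφ : ContDiff ℝ 1 φ)
    (hc : HasCompactSupport φ) (hs : tsupport φ ⊆ V) {z0 : ℂ} (hz0 : z0 ∈ V) {d : ℝ} (hd : 0 < d)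
    (hone : ∀ z, ‖z - z0‖ < d → φ z = 1) (hh : DifferentiableOn ℂ h V)
    {B : ℂ → ℝ} (hB : Integrable B) (hB0 : ∀ z, ‖D φ z‖ * ‖h z‖ ≤ B z) :
    4 * T0 * d * ‖h z0‖ ≤ ∫ z, B z := by
  have h1 := rep hV hφ hc hs hz0 hd hone hh
  have h2 : ‖∫ z, D φ z * (h z / (z - z0))‖ ≤ ∫ z, B z / d := by
    apply norm_integral_le_of_norm_le (hB.div_const d)
    filter_upwards with z
    rcases lt_or_ge ‖z - z0‖ d with hz | hz
    · have : φ =ᶠ[𝓝 z] fun _ => 1 := by
        have : ball z0 d ∈ 𝓝 z := isOpen_ball.mem_nhds (by rw [mem_ball, dist_eq_norm]; exact hz)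
        filter_upwards [this] with w hw
        rw [mem_ball, dist_eq_norm] at hw
        exact hone w hw
      have hD0 : D φ z = 0 := by
        unfold D
        rw [this.fderiv_eq]; simp
      rw [hD0, zero_mul, norm_zero]
      have := hB0 z
      have h3 : 0 ≤ ‖D φ z‖ * ‖h z‖ := by positivity
      have h4 : 0 ≤ B z := h3.trans this
      positivity
    · rw [norm_mul, norm_div, mul_div_assoc']
      have := hB0 z
      have h3 : 0 ≤ ‖D φ z‖ * ‖h z‖ := by positivity
      gcongr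
      exact h3.trans this
  rw [h1, norm_mul, norm_mul, norm_neg, integral_div, norm_real,
    Real.norm_of_nonneg T0_pos.le, le_div_iff₀ hd] at h2
  have e : ‖(4 : ℂ)‖ = 4 := by simp
  rw [e] at h2
  linarith

/-! ### cutoffs -/

noncomputable def cut (c : ℂ) (R : ℝ) (z : ℂ) : ℝ := b (R⁻¹ • (z - c))

lemma cut_contDiff (c : ℂ) (R : ℝ) : ContDiff ℝ 1 (cut c R) := b_contDiff.comp (by fun_prop)

lemma cut_nonneg (c : ℂ) (R : ℝ) (z : ℂ) : 0 ≤ cut c R z := b_nonneg _
lemma cut_le_one (c : ℂ) (R : ℝ) (z : ℂ) : cut c R z ≤ 1 := b_le_one _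

lemma cut_one {c : ℂ} {R : ℝ} (hR : 0 < R) {z : ℂ} (h : ‖z - c‖ ≤ R) : cut c R z = 1 := by
  apply b_one
  rw [norm_smul, norm_inv, Real.norm_of_nonneg hR.le, inv_mul_le_iff₀ hR]
  linarith

lemma cut_zero {c : ℂ} {R : ℝ} (hR : 0 < R) {z : ℂ} (h : 5 / 4 * R ≤ ‖z - c‖) : cut c R z = 0 := by
  apply b_zero
  rw [norm_smul, norm_inv, Real.norm_of_nonneg hR.le, le_inv_mul_iff₀ hR]
  linarith

lemma cut_fderiv_supp {c : ℂ} {R : ℝ} (hR : 0 < R) {z : ℂ} (h : fderiv ℝ (cut c R) z ≠ 0) :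
    R ≤ ‖z - c‖ ∧ ‖z - c‖ ≤ 5 / 4 * R := by
  constructor
  · by_contra hcon
    push Not at hcon
    apply h
    have : cut c R =ᶠ[𝓝 z] fun _ => 1 := by
      have : ball c R ∈ 𝓝 z := isOpen_ball.mem_nhds (by rw [mem_ball, dist_eq_norm]; exact hcon)
      filter_upwards [this] with w hw
      rw [mem_ball, dist_eq_norm] at hw
      exact cut_one hR hw.le
    rw [this.fderiv_eq]; simp
  · by_contra hcon
    push Not at hcon
    apply h
    have : cut c R =ᶠ[𝓝 z] fun _ => 0 := by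
      have : (closedBall c (5 / 4 * R))ᶜ ∈ 𝓝 z :=
        isClosed_closedBall.isOpen_compl.mem_nhds (by
          rw [mem_compl_iff, mem_closedBall, dist_eq_norm, not_le]; exact hcon)
      filter_upwards [this] with w hw
      rw [mem_compl_iff, mem_closedBall, dist_eq_norm, not_le] at hw
      exact cut_zero hR hw.le
    rw [this.fderiv_eq]; simp

lemma cut_fderiv (c : ℂ) (R : ℝ) (z : ℂ) : fderiv ℝ (cut c R) z = R⁻¹ • fderiv ℝ b (R⁻¹ • (z - c)) := by
  have h1 : HasFDerivAt (fun z : ℂ => R⁻¹ • (z - c)) (R⁻¹ • ContinuousLinearMap.id ℝ ℂ) z :=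
    ((hasFDerivAt_id z).sub_const c).const_smul R⁻¹
  have h2 : HasFDerivAt b (fderiv ℝ b (R⁻¹ • (z - c))) (R⁻¹ • (z - c)) :=
    ((b_contDiff.differentiable (by norm_num)) _).hasFDerivAt
  have h3 : HasFDerivAt (cut c R) _ z := h2.comp z h1
  rw [h3.fderiv]
  ext v <;> simp

noncomputable def L : ℝ := ∫ z : ℂ, ‖fderiv ℝ b z‖

lemma L_nonneg : 0 ≤ L := integral_nonneg (fun _ => norm_nonneg _)

lemma cut_compact {c : ℂ} {R : ℝ} (hR : 0 < R) : HasCompactSupport (cut c R) := by
  apply HasCompactSupport.intro (isCompact_closedBall c (5 / 4 * R))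
  intro z hz
  rw [mem_closedBall, dist_eq_norm, not_le] at hz
  exact cut_zero hR hz.le

lemma cut_integrable {c : ℂ} {R : ℝ} (hR : 0 < R) : Integrable (fun z => ‖fderiv ℝ (cut c R) z‖) := by
  have h1 : Continuous (fderiv ℝ (cut c R)) := (cut_contDiff c R).continuous_fderiv (by norm_num)
  exact (h1.integrable_of_hasCompactSupport ((cut_compact hR).fderiv ℝ)).norm

lemma cut_integral {c : ℂ} {R : ℝ} (hR : 0 < R) : ∫ z, ‖fderiv ℝ (cut c R) z‖ = R * L := by
  simp_rw [cut_fderiv, norm_smul]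
  rw [integral_const_mul]
  have h1 := integral_sub_right_eq_self (μ := (volume : Measure ℂ))
    (fun w : ℂ => ‖fderiv ℝ b (R⁻¹ • w)‖) c
  rw [h1]
  have h2 := Measure.integral_comp_inv_smul_of_nonneg (volume : Measure ℂ)
    (fun w : ℂ => ‖fderiv ℝ b w‖) hR.le
  rw [h2, finrank_real_complex, smul_eq_mul, norm_inv, Real.norm_of_nonneg hR.le]
  unfold L
  field_simp

lemma norm_D_le {f : ℂ → ℝ} {z : ℂ} (hf : DifferentiableAt ℝ f z) :
    ‖D (fun z => (f z : ℂ)) z‖ ≤ 2 * ‖fderiv ℝ f z‖ := by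
  rw [D_ofReal hf]
  refine (norm_add_le _ _).trans ?_
  rw [norm_mul, norm_I, one_mul, norm_real, norm_real]
  have h1 := (fderiv ℝ f z).le_opNorm 1
  have h2 := (fderiv ℝ f z).le_opNorm I
  rw [norm_one] at h1
  rw [norm_I] at h2
  linarith

lemma fderiv_mul_le {f g : ℂ → ℝ} {z : ℂ} (hf : DifferentiableAt ℝ f z) (hg : DifferentiableAt ℝ g z)
    (h1 : |f z| ≤ 1) (h2 : |g z| ≤ 1) :
    ‖fderiv ℝ (fun z => f z * g z) z‖ ≤ ‖fderiv ℝ f z‖ + ‖fderiv ℝ g z‖ := by
  rw [fderiv_fun_mul hf hg]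
  refine (norm_add_le _ _).trans ?_
  rw [norm_smul, norm_smul, Real.norm_eq_abs, Real.norm_eq_abs]
  have := norm_nonneg (fderiv ℝ f z)
  have := norm_nonneg (fderiv ℝ g z)
  nlinarith

lemma fderiv_prod_le {ι : Type*} (s : Finset ι) (f : ι → ℂ → ℝ) (hf : ∀ i ∈ s, ContDiff ℝ 1 (f i))
    (h0 : ∀ i ∈ s, ∀ z, 0 ≤ f i z) (h1 : ∀ i ∈ s, ∀ z, f i z ≤ 1) (z : ℂ) :
    ‖fderiv ℝ (fun z => ∏ i ∈ s, f i z) z‖ ≤ ∑ i ∈ s, ‖fderiv ℝ (f i) z‖ := by
  classical
  induction s using Finset.induction_on with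
  | empty => simp
  | insert a s ha ih =>
    simp_rw [Finset.prod_insert ha]
    rw [Finset.sum_insert ha]
    have hs : ContDiff ℝ 1 (fun z => ∏ i ∈ s, f i z) :=
      contDiff_prod (fun i hi => hf i (Finset.mem_insert_of_mem hi))
    have h2 : 0 ≤ ∏ i ∈ s, f i z :=
      Finset.prod_nonneg (fun i hi => h0 i (Finset.mem_insert_of_mem hi) z)
    have h3 : ∏ i ∈ s, f i z ≤ 1 :=
      Finset.prod_le_one (fun i hi => h0 i (Finset.mem_insert_of_mem hi) z)
        (fun i hi => h1 i (Finset.mem_insert_of_mem hi) z)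
    have h4 := fderiv_mul_le (f := f a) (g := fun z => ∏ i ∈ s, f i z) (z := z)
      (((hf a (Finset.mem_insert_self _ _)).differentiable (by norm_num)) z)
      ((hs.differentiable (by norm_num)) z)
      (abs_le.2 ⟨by linarith [h0 a (Finset.mem_insert_self _ _) z], h1 a (Finset.mem_insert_self _ _) z⟩)
      (abs_le.2 ⟨by linarith, h3⟩)
    refine h4.trans ?_
    have h5 := ih (fun i hi => hf i (Finset.mem_insert_of_mem hi))
      (fun i hi => h0 i (Finset.mem_insert_of_mem hi)) (fun i hi => h1 i (Finset.mem_insert_of_mem hi))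
    linarith

lemma fderiv_one_sub (f : ℂ → ℝ) (z : ℂ) : fderiv ℝ (fun z => 1 - f z) z = - fderiv ℝ f z :=
  fderiv_const_sub 1

end Pool.Agent.Helper914.Iversen
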