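import Pool.Agent.Helper914.Iversen.Acc
import Pool.Agent.Helper914.Iversen.Green

set_option autoImplicit false
open Complex Metric MeasureTheory Filter Topology Set

namespace Pool.Agent.Helper914.Iversen
namespace Sys
variable {K : Set ℂ} (S : Sys K)

lemma cover_small {n : ℕ} {C : Finset ℂ} {ρ : ℝ} (h1 : 4 * S.t n ≤ ρ)
    (h2 : ∀ x ∈ S.Z n, ∃ c ∈ C, ‖x - c‖ ≤ ρ) (h3 : (C.card : ℝ) * ρ ≤ 1 / 2 ^ n) :
    0 < ρ ∧ ρ ≤ 1 / 2 ^ n := by
  have ht := S.t_pos n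
  have hρ : 0 < ρ := by linarith
  refine ⟨hρ, ?_⟩
  obtain ⟨c, hc, -⟩ := h2 _ (S.mem n)
  have h4 : 1 ≤ C.card := Finset.card_pos.2 ⟨c, hc⟩
  have h5 : (1 : ℝ) ≤ C.card := by exact_mod_cast h4
  nlinarith

/-- the real cutoff -/
noncomputable def ph (n : ℕ) (C : Finset ℂ) (ρ : ℝ) (z : ℂ) : ℝ :=
  cut 0 1 z * ((∏ j ∈ Finset.range n, (1 - cut (S.a j) (4 / 3 * S.r j) z)) *
    ∏ c ∈ C, (1 - cut c (2 * ρ) z))

lemma sub_cut_contDiff (c : ℂ) (R : ℝ) : ContDiff ℝ 1 (fun z => 1 - cut c R z) :=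
  contDiff_const.sub (cut_contDiff c R)

lemma ph_contDiff (n : ℕ) (C : Finset ℂ) (ρ : ℝ) : ContDiff ℝ 1 (S.ph n C ρ) := by
  unfold ph
  apply (cut_contDiff 0 1).mul
  apply ContDiff.mul
  · exact contDiff_prod (fun j _ => sub_cut_contDiff _ _)
  · exact contDiff_prod (fun c _ => sub_cut_contDiff _ _)

lemma ph_fderiv_le (n : ℕ) (C : Finset ℂ) (ρ : ℝ) (z : ℂ) :
    ‖fderiv ℝ (S.ph n C ρ) z‖ ≤ ‖fderiv ℝ (cut 0 1) z‖ +
      (∑ j ∈ Finset.range n, ‖fderiv ℝ (cut (S.a j) (4 / 3 * S.r j)) z‖ +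
        ∑ c ∈ C, ‖fderiv ℝ (cut c (2 * ρ)) z‖) := by
  have hA : ContDiff ℝ 1 (fun z => ∏ j ∈ Finset.range n, (1 - cut (S.a j) (4 / 3 * S.r j) z)) :=
    contDiff_prod (fun j _ => sub_cut_contDiff _ _)
  have hB : ContDiff ℝ 1 (fun z => ∏ c ∈ C, (1 - cut c (2 * ρ) z)) :=
    contDiff_prod (fun c _ => sub_cut_contDiff _ _)
  have a0 : 0 ≤ ∏ j ∈ Finset.range n, (1 - cut (S.a j) (4 / 3 * S.r j) z) :=
    Finset.prod_nonneg (fun j _ => by linarith [cut_le_one (S.a j) (4 / 3 * S.r j) z])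
  have a1 : ∏ j ∈ Finset.range n, (1 - cut (S.a j) (4 / 3 * S.r j) z) ≤ 1 :=
    Finset.prod_le_one (fun j _ => by linarith [cut_le_one (S.a j) (4 / 3 * S.r j) z])
      (fun j _ => by linarith [cut_nonneg (S.a j) (4 / 3 * S.r j) z])
  have b0 : 0 ≤ ∏ c ∈ C, (1 - cut c (2 * ρ) z) :=
    Finset.prod_nonneg (fun c _ => by linarith [cut_le_one c (2 * ρ) z])
  have b1 : ∏ c ∈ C, (1 - cut c (2 * ρ) z) ≤ 1 :=
    Finset.prod_le_one (fun c _ => by linarith [cut_le_one c (2 * ρ) z])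
      (fun c _ => by linarith [cut_nonneg c (2 * ρ) z])
  have h1 := fderiv_mul_le (f := fun z => ∏ j ∈ Finset.range n, (1 - cut (S.a j) (4 / 3 * S.r j) z))
    (g := fun z => ∏ c ∈ C, (1 - cut c (2 * ρ) z)) (z := z)
    ((hA.differentiable (by norm_num)) z) ((hB.differentiable (by norm_num)) z)
    (abs_le.2 ⟨by linarith, a1⟩) (abs_le.2 ⟨by linarith, b1⟩)
  have h2 := fderiv_mul_le (f := cut 0 1)
    (g := fun z => (∏ j ∈ Finset.range n, (1 - cut (S.a j) (4 / 3 * S.r j) z)) *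
      ∏ c ∈ C, (1 - cut c (2 * ρ) z)) (z := z)
    (((cut_contDiff 0 1).differentiable (by norm_num)) z)
    (((hA.mul hB).differentiable (by norm_num)) z)
    (abs_le.2 ⟨by linarith [cut_nonneg 0 1 z], cut_le_one _ _ _⟩)
    (abs_le.2 ⟨by have := mul_nonneg a0 b0; linarith, mul_le_one₀ a1 b0 b1⟩)
  have h3 := fderiv_prod_le (Finset.range n) (fun j z => 1 - cut (S.a j) (4 / 3 * S.r j) z)
    (fun j _ => sub_cut_contDiff _ _) (fun j _ z => by linarith [cut_le_one (S.a j) (4 / 3 * S.r j) z])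
    (fun j _ z => by linarith [cut_nonneg (S.a j) (4 / 3 * S.r j) z]) z
  have h4 := fderiv_prod_le C (fun c z => 1 - cut c (2 * ρ) z)
    (fun j _ => sub_cut_contDiff _ _) (fun c _ z => by linarith [cut_le_one c (2 * ρ) z])
    (fun c _ z => by linarith [cut_nonneg c (2 * ρ) z]) z
  simp only [fderiv_one_sub, norm_neg] at h3 h4
  calc _ ≤ _ := h2
    _ ≤ _ := by gcongr; exact h1.trans (add_le_add h3 h4)

lemma ph_tsupport {n : ℕ} {C : Finset ℂ} {ρ : ℝ} (h1 : 4 * S.t n ≤ ρ)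
    (h2 : ∀ x ∈ S.Z n, ∃ c ∈ C, ‖x - c‖ ≤ ρ) :
    tsupport (S.ph n C ρ) ⊆ S.V ∩ closedBall 0 (5 / 4) := by
  have ht := S.t_pos n
  have hρ : 0 < ρ := by linarith
  set D : Set ℂ := closedBall 0 (5 / 4) ∩ ((⋂ j ∈ Finset.range n, {z | 4 / 3 * S.r j ≤ ‖z - S.a j‖}) ∩
    ⋂ c ∈ C, {z | 2 * ρ ≤ ‖z - c‖}) with hD
  have hDc : IsClosed D := by
    apply isClosed_closedBall.inter
    apply IsClosed.inter
    · exact isClosed_biInter (fun j _ => isClosed_le continuous_const (by fun_prop))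
    · exact isClosed_biInter (fun j _ => isClosed_le continuous_const (by fun_prop))
  have hsub : tsupport (S.ph n C ρ) ⊆ D := by
    apply closure_minimal _ hDc
    intro z hz
    rw [Function.mem_support] at hz
    unfold ph at hz
    have h3 := left_ne_zero_of_mul hz
    have h4 := right_ne_zero_of_mul hz
    have h5 := left_ne_zero_of_mul h4
    have h6 := right_ne_zero_of_mul h4
    rw [Finset.prod_ne_zero_iff] at h5 h6
    refine ⟨?_, ?_, ?_⟩
    · rw [mem_closedBall, dist_eq_norm]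
      by_contra hcon
      push Not at hcon
      exact h3 (cut_zero one_pos (by linarith))
    · simp only [mem_iInter]
      intro j hj
      by_contra hcon
      rw [mem_ofPred_eq, not_le] at hcon
      apply h5 j hj
      rw [cut_one (by have := S.r_pos j; linarith) hcon.le, sub_self]
    · simp only [mem_iInter]
      intro c hc
      by_contra hcon
      rw [mem_ofPred_eq, not_le] at hcon
      apply h6 c hc
      rw [cut_one (by linarith) hcon.le, sub_self]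
  intro z hz
  have hzD := hsub hz
  refine ⟨⟨?_, ?_⟩, hzD.1⟩
  · have h3 := hzD.1
    rw [mem_closedBall_zero_iff] at h3
    rw [mem_ball_zero_iff]
    linarith
  · intro hE
    rcases S.E_sub n hE with h9 | h9
    · simp only [Set.mem_iUnion] at h9
      obtain ⟨i, hi, h10⟩ := h9
      rw [mem_closedBall, dist_eq_norm] at h10
      have h11 := mem_iInter₂.1 hzD.2.1 i hi
      rw [mem_ofPred_eq] at h11
      have := S.r_pos i
      linarith
    · have h10 := cthickening_subset_thickening' (δ₁ := S.t n / 16) (δ₂ := S.t n)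
        (S.t_pos n) (by have := S.t_pos n; linarith) (S.Z n) h9
      rw [mem_thickening_iff] at h10
      obtain ⟨y, hy, h11⟩ := h10
      rw [dist_eq_norm] at h11
      obtain ⟨c, hc, h12⟩ := h2 y hy
      have h13 := mem_iInter₂.1 hzD.2.2 c hc
      rw [mem_ofPred_eq] at h13
      have h14 : ‖z - c‖ ≤ ‖z - y‖ + ‖y - c‖ := by
        have := norm_add_le (z - y) (y - c); simpa using this
      linarith

/-- the estimate at level `n` -/
lemma level {z0 : ℂ} (hz0 : z0 ∈ S.V) {δ d : ℝ} (hd : 0 < d) (hd1 : d ≤ δ / 6) (hd2 : d ≤ 1 - ‖z0‖)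
    (hδ2 : ∀ j, δ ≤ ‖z0 - S.a j‖) (hcol : ∀ j, 2 * S.r j < ‖z0 - S.a j‖)
    {n : ℕ} (hn1 : ∀ y ∈ S.Z n, ∃ i < n, ‖y - S.a i‖ < δ / 4) (hn2 : (1 : ℝ) / 2 ^ n < δ / 6)
    {h : ℂ → ℂ} {m G : ℝ} (hm : 0 ≤ m) (hG : 0 ≤ G) (hh : DifferentiableOn ℂ h S.V)
    (hhG : ∀ z ∈ S.V, ‖h z‖ ≤ G) (hhm : ∀ z ∈ S.V, 1 / 4 ≤ ‖S.F z‖ → ‖h z‖ ≤ m) :
    4 * T0 * d * ‖h z0‖ ≤ 2 * (m * (L * (1 + 4 / 3 * ∑' j, S.r j))) + 4 * (G * L) * (1 / 2 ^ n) := by
  obtain ⟨C, hCZ, ρ, h1, h2, h3⟩ := S.cov n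
  obtain ⟨hρ, hρn⟩ := S.cover_small h1 h2 h3
  have hts := S.ph_tsupport h1 h2
  -- the complex cutoff
  set φ : ℂ → ℂ := fun z => (S.ph n C ρ z : ℂ) with hφ
  have hφC : ContDiff ℝ 1 φ := ofRealCLM.contDiff.comp (S.ph_contDiff n C ρ)
  have hφts : tsupport φ ⊆ tsupport (S.ph n C ρ) := closure_mono (by
    intro x hx h0
    apply hx
    simp only [hφ, h0, ofReal_zero])
  have hφc : HasCompactSupport φ :=
    IsCompact.of_isClosed_subset (isCompact_closedBall (0 : ℂ) (5 / 4)) (isClosed_tsupport _)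
      (hφts.trans (hts.trans inter_subset_right))
  have hφV : tsupport φ ⊆ S.V := hφts.trans (hts.trans inter_subset_left)
  have hone : ∀ z, ‖z - z0‖ < d → φ z = 1 := by
    intro z hz
    have e1 : cut 0 1 z = 1 := by
      apply cut_one one_pos
      rw [sub_zero]
      have : ‖z‖ ≤ ‖z - z0‖ + ‖z0‖ := by simpa using norm_add_le (z - z0) z0
      linarith
    have e2 : ∀ j ∈ Finset.range n, 1 - cut (S.a j) (4 / 3 * S.r j) z = 1 := by
      intro j _
      have hr := S.r_pos j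
      rw [cut_zero (by linarith), sub_zero]
      have g1 : ‖z0 - S.a j‖ ≤ ‖z0 - z‖ + ‖z - S.a j‖ := by
        have := norm_add_le (z0 - z) (z - S.a j); simpa using this
      rw [norm_sub_rev z0 z] at g1
      have g2 := hδ2 j
      have g3 := hcol j
      rcases le_or_gt (δ / 2) (S.r j) with g4 | g4 <;> linarith
    have e3 : ∀ c ∈ C, 1 - cut c (2 * ρ) z = 1 := by
      intro c hc
      rw [cut_zero (by linarith), sub_zero]
      obtain ⟨i, -, g0⟩ := hn1 c (hCZ hc)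
      have g1 : ‖z0 - S.a i‖ ≤ ‖z0 - z‖ + (‖z - c‖ + ‖c - S.a i‖) := by
        have := norm_add_le (z0 - z) (z - c + (c - S.a i))
        have g5 := norm_add_le (z - c) (c - S.a i)
        simp only [sub_add_sub_cancel] at this g5
        linarith
      rw [norm_sub_rev z0 z] at g1
      have g2 := hδ2 i
      linarith
    simp only [hφ, ph]
    rw [e1, Finset.prod_congr rfl e2, Finset.prod_congr rfl e3]
    simp
  set B : ℂ → ℝ := fun z => 2 * (m * (‖fderiv ℝ (cut 0 1) z‖ +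
      ∑ j ∈ Finset.range n, ‖fderiv ℝ (cut (S.a j) (4 / 3 * S.r j)) z‖) +
        G * ∑ c ∈ C, ‖fderiv ℝ (cut c (2 * ρ)) z‖) with hB
  have i0 : Integrable (fun z => ‖fderiv ℝ (cut 0 1) z‖) := cut_integrable one_pos
  have i1 : ∀ j, Integrable (fun z => ‖fderiv ℝ (cut (S.a j) (4 / 3 * S.r j)) z‖) := fun j =>
    cut_integrable (by have := S.r_pos j; linarith)
  have i2 : ∀ c, Integrable (fun z => ‖fderiv ℝ (cut c (2 * ρ)) z‖) := fun c =>
    cut_integrable (by linarith)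
  have i3 : Integrable (fun z => ∑ j ∈ Finset.range n, ‖fderiv ℝ (cut (S.a j) (4 / 3 * S.r j)) z‖) :=
    integrable_finsetSum _ (fun j _ => i1 j)
  have i4 : Integrable (fun z => ∑ c ∈ C, ‖fderiv ℝ (cut c (2 * ρ)) z‖) :=
    integrable_finsetSum _ (fun c _ => i2 c)
  have i5 : Integrable (fun z => ‖fderiv ℝ (cut 0 1) z‖ +
      ∑ j ∈ Finset.range n, ‖fderiv ℝ (cut (S.a j) (4 / 3 * S.r j)) z‖) := i0.add i3
  have hBi : Integrable B := ((i5.const_mul m).add (i4.const_mul G)).const_mul 2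
  have hB0 : ∀ z, ‖D φ z‖ * ‖h z‖ ≤ B z := by
    intro z
    by_cases hz : z ∈ S.V
    · have g1 : ‖D φ z‖ ≤ 2 * ‖fderiv ℝ (S.ph n C ρ) z‖ :=
        norm_D_le (((S.ph_contDiff n C ρ).differentiable (by norm_num)) z)
      have g2 := S.ph_fderiv_le n C ρ z
      have g3 : ‖fderiv ℝ (cut 0 1) z‖ * ‖h z‖ ≤ m * ‖fderiv ℝ (cut 0 1) z‖ := by
        by_cases g4 : fderiv ℝ (cut 0 1) z = 0
        · rw [g4]; simp
        · have g5 := cut_fderiv_supp one_pos g4
          rw [sub_zero] at g5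
          have g6 := hhm z hz (S.F_outer g5.1)
          rw [mul_comm]
          gcongr
      have g4 : (∑ j ∈ Finset.range n, ‖fderiv ℝ (cut (S.a j) (4 / 3 * S.r j)) z‖) * ‖h z‖ ≤
          m * ∑ j ∈ Finset.range n, ‖fderiv ℝ (cut (S.a j) (4 / 3 * S.r j)) z‖ := by
        rw [Finset.sum_mul, Finset.mul_sum]
        apply Finset.sum_le_sum
        intro j _
        have hr := S.r_pos j
        by_cases g4 : fderiv ℝ (cut (S.a j) (4 / 3 * S.r j)) z = 0
        · rw [g4]; simp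
        · have g5 := cut_fderiv_supp (by linarith) g4
          have hne : z ≠ S.a j := by
            intro h0
            rw [h0, sub_self, norm_zero] at g5
            linarith [g5.1]
          have g6 := hhm z hz (S.F_collar (n := j) (by linarith [g5.2]) hne)
          rw [mul_comm]
          gcongr
      have g5 : (∑ c ∈ C, ‖fderiv ℝ (cut c (2 * ρ)) z‖) * ‖h z‖ ≤
          G * ∑ c ∈ C, ‖fderiv ℝ (cut c (2 * ρ)) z‖ := by
        rw [mul_comm]
        have := hhG z hz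
        gcongr
      have hnn := norm_nonneg (h z)
      calc ‖D φ z‖ * ‖h z‖ ≤ (2 * (‖fderiv ℝ (cut 0 1) z‖ +
      (∑ j ∈ Finset.range n, ‖fderiv ℝ (cut (S.a j) (4 / 3 * S.r j)) z‖ +
        ∑ c ∈ C, ‖fderiv ℝ (cut c (2 * ρ)) z‖))) * ‖h z‖ := by
            gcongr; linarith
        _ = 2 * (‖fderiv ℝ (cut 0 1) z‖ * ‖h z‖ +
      ((∑ j ∈ Finset.range n, ‖fderiv ℝ (cut (S.a j) (4 / 3 * S.r j)) z‖) * ‖h z‖ +
        (∑ c ∈ C, ‖fderiv ℝ (cut c (2 * ρ)) z‖) * ‖h z‖)) := by ring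
        _ ≤ B z := by simp only [hB]; linarith
    · have g1 : z ∉ tsupport φ := fun hh => hz (hφV hh)
      have g2 : D φ z = 0 := by
        unfold D
        rw [fderiv_of_notMem_tsupport ℝ g1]; simp
      rw [g2, norm_zero, zero_mul]
      simp only [hB]
      have g3 : 0 ≤ ∑ j ∈ Finset.range n, ‖fderiv ℝ (cut (S.a j) (4 / 3 * S.r j)) z‖ :=
        Finset.sum_nonneg (fun c _ => norm_nonneg _)
      have g4 : 0 ≤ ∑ c ∈ C, ‖fderiv ℝ (cut c (2 * ρ)) z‖ :=
        Finset.sum_nonneg (fun c _ => norm_nonneg _)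
      positivity
  have key := est S.isOpen_V hφC hφc hφV hz0 hd hone hh hBi hB0
  refine key.trans ?_
  simp only [hB]
  rw [integral_const_mul, integral_add (i5.const_mul m) (i4.const_mul G),
    integral_const_mul, integral_const_mul, integral_add i0 i3,
    integral_finsetSum _ (fun j _ => i1 j), integral_finsetSum _ (fun c _ => i2 c),
    cut_integral one_pos]
  have e1 : ∀ j ∈ Finset.range n, ∫ z, ‖fderiv ℝ (cut (S.a j) (4 / 3 * S.r j)) z‖ = 4 / 3 * L * S.r j := by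
    intro j _
    rw [cut_integral (by have := S.r_pos j; linarith)]; ring
  have e2 : ∀ c ∈ C, ∫ z, ‖fderiv ℝ (cut c (2 * ρ)) z‖ = 2 * ρ * L := fun c _ =>
    cut_integral (by linarith)
  rw [Finset.sum_congr rfl e1, Finset.sum_congr rfl e2, ← Finset.mul_sum, Finset.sum_const,
    nsmul_eq_mul]
  have hL := L_nonneg
  have e3 : ∑ j ∈ Finset.range n, S.r j ≤ ∑' j, S.r j :=
    S.summable_r.sum_le_tsum _ (fun j _ => (S.r_pos j).le)
  have e4 : m * (1 * L + 4 / 3 * L * ∑ j ∈ Finset.range n, S.r j) ≤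
      m * (L * (1 + 4 / 3 * ∑' j, S.r j)) := by
    apply mul_le_mul_of_nonneg_left _ hm
    nlinarith
  have e5 : G * ((C.card : ℝ) * (2 * ρ * L)) ≤ 2 * (G * L) * (1 / 2 ^ n) := by
    calc G * ((C.card : ℝ) * (2 * ρ * L)) = 2 * (G * L) * ((C.card : ℝ) * ρ) := by ring
      _ ≤ 2 * (G * L) * (1 / 2 ^ n) := by gcongr
  linarith

theorem exists_bound {z0 : ℂ} (hz0 : z0 ∈ S.V) (hF : ‖S.F z0‖ < 1 / 4) :
    ∃ C : ℝ, 0 ≤ C ∧ ∀ (h : ℂ → ℂ) (m G : ℝ), 0 ≤ m → 0 ≤ G → DifferentiableOn ℂ h S.V →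
      (∀ z ∈ S.V, ‖h z‖ ≤ G) → (∀ z ∈ S.V, 1 / 4 ≤ ‖S.F z‖ → ‖h z‖ ≤ m) → ‖h z0‖ ≤ C * m := by
  obtain ⟨δ, hδ, hδ1, hδ2⟩ := S.exists_delta hz0.2
  have hz1 : ‖z0‖ < 1 := by
    by_contra hcon
    push Not at hcon
    have := S.F_outer hcon
    linarith
  have hcol : ∀ j, 2 * S.r j < ‖z0 - S.a j‖ := by
    intro j
    by_contra hcon
    push Not at hcon
    have hne : z0 ≠ S.a j := by
      intro h0
      apply hz0.2
      rw [h0]; exact S.a_mem_E j
    have := S.F_collar hcon hne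
    linarith
  set d := min (δ / 6) (1 - ‖z0‖) with hd
  have hdp : 0 < d := lt_min (by positivity) (by linarith)
  have hT := T0_pos
  have hL := L_nonneg
  have hR : 0 ≤ ∑' j, S.r j := tsum_nonneg (fun j => (S.r_pos j).le)
  obtain ⟨N1, hN1⟩ := S.dense (show 0 < δ / 4 by positivity)
  obtain ⟨N2, hN2⟩ := exists_small (show 0 < δ / 6 by positivity)
  refine ⟨2 * (L * (1 + 4 / 3 * ∑' j, S.r j)) / (4 * T0 * d), by positivity, ?_⟩
  intro h m G hm hG hh hhG hhm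
  have key : 4 * T0 * d * ‖h z0‖ ≤ 2 * (m * (L * (1 + 4 / 3 * ∑' j, S.r j))) := by
    apply le_of_forall_pos_le_add
    intro ε hε
    obtain ⟨N3, hN3⟩ := exists_small (show 0 < ε / (4 * (G * L) + 1) by positivity)
    set n := max (max N1 N2) N3 with hn
    have h1 := S.level hz0 hdp (min_le_left _ _) (min_le_right _ _) hδ2 hcol
      (hN1 n ((le_max_left _ _).trans (le_max_left _ _)))
      (hN2 n ((le_max_right _ _).trans (le_max_left _ _))) hm hG hh hhG hhm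
    refine h1.trans ?_
    have h2 := hN3 n (le_max_right _ _)
    rw [lt_div_iff₀ (by positivity)] at h2
    have h3 : (0 : ℝ) < 1 / 2 ^ n := by positivity
    linarith
  rw [div_mul_eq_mul_div, le_div_iff₀ (by positivity)]
  linarith

/-- **maximum principle**: functions in `H^∞(V)` are controlled by their values where
`|F| ≥ 1/4` -/
theorem maxp {g : ℂ → ℂ} {m G : ℝ} (hm : 0 ≤ m) (hg : DifferentiableOn ℂ g S.V)
    (hgG : ∀ z ∈ S.V, ‖g z‖ ≤ G) (hgm : ∀ z ∈ S.V, 1 / 4 ≤ ‖S.F z‖ → ‖g z‖ ≤ m) :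
    ∀ z ∈ S.V, ‖g z‖ ≤ m := by
  intro z0 hz0
  rcases le_or_gt (1 / 4) ‖S.F z0‖ with hF | hF
  · exact hgm z0 hz0 hF
  have hG : 0 ≤ G := (norm_nonneg _).trans (hgG z0 hz0)
  obtain ⟨C, hC, hb⟩ := S.exists_bound hz0 hF
  by_contra hcon
  push Not at hcon
  have h1 : ∀ N : ℕ, ‖g z0‖ ^ N ≤ C * m ^ N := by
    intro N
    have := hb (fun z => g z ^ N) (m ^ N) (G ^ N) (by positivity) (by positivity) (hg.pow N)
      (fun z hz => by rw [norm_pow]; exact pow_le_pow_left₀ (norm_nonneg _) (hgG z hz) N)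
      (fun z hz hzF => by rw [norm_pow]; exact pow_le_pow_left₀ (norm_nonneg _) (hgm z hz hzF) N)
    rwa [norm_pow] at this
  rcases hm.eq_or_lt with hm0 | hm0
  · have := h1 1
    rw [pow_one, pow_one, ← hm0, mul_zero] at this
    linarith
  · obtain ⟨N, hN⟩ := pow_unbounded_of_one_lt C (show 1 < ‖g z0‖ / m by rwa [one_lt_div hm0])
    have := h1 N
    rw [div_pow, lt_div_iff₀ (by positivity)] at hN
    linarith

end Sys
end Pool.Agent.Helper914.Iversen
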