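import Pool.Agent.Helper914.Iversen.Step

set_option autoImplicit false
open Polynomial Complex Metric

namespace Pool.Agent.Helper914.Iversen

noncomputable def s0 : St := ⟨X, 1, ∅, 1, 0, -1⟩

lemma good_init {K : Set ℂ} (hK : KP K) : Good K 0 s0 where
  mon w := by
    simp only [s0, mul_one]
    exact monic_X_sub_C w
  deg w := by
    simp only [s0, mul_one]
    exact natDegree_X_sub_C w
  degQ := by simp [s0]
  bdQ z hz := by simp [s0]
  inn z hz := by
    obtain ⟨w, hw, hz⟩ := hz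
    simp only [s0, mul_one, eval_sub, eval_X, eval_C] at hz
    rw [sub_eq_zero.1 hz]
    have := hK.small w hw
    norm_num; linarith
  out z w hz hw := by
    simp only [s0, mul_one, eval_sub, eval_X, eval_C, eval_one, norm_one]
    refine ⟨one_pos, ?_⟩
    have := norm_sub_norm_le z w
    norm_num; linarith
  cop z hz := by simp [s0] at hz
  Tp := one_pos
  T1 := le_refl _
  dis := by
    have : closedBall s0.c s0.ρ = ∅ := closedBall_eq_empty.2 (by simp [s0])
    rw [this]; exact Set.disjoint_empty _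

lemma Good.mem_norm {K : Set ℂ} {n : ℕ} {s : St} (h : Good K n s) {z : ℂ}
    (hz : z ∈ Zs s.P s.Q K) : ‖z‖ ≤ 1 / 8 := by
  have := h.inn z hz
  have h2 : (0 : ℝ) ≤ 1 / (16 * 2 ^ n) := by positivity
  linarith

lemma next_eval (n : ℕ) (s : St) (a : ℂ) (d t : ℝ) (w z : ℂ) :
    ((next n s a d t).P - C w * (next n s a d t).Q).eval z =
      (s.P - C w * s.Q).eval z * (z - a) + ((rr n d : ℝ) : ℂ) * s.Q.eval z := by
  simp only [next, eval_sub, eval_add, eval_mul, eval_C, eval_X]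
  ring

lemma pow6 (n : ℕ) : (1 : ℝ) / 2 ^ (n + 6) = 1 / 2 ^ n * (1 / 64) := by
  rw [pow_add]; field_simp; norm_num

lemma good_next {K : Set ℂ} (hK : KP K) {n : ℕ} {s : St} (h : Good K n s) {a : ℂ} {d t : ℝ}
    (hp : Pk K n s a d t) : Good K (n + 1) (next n s a d t) := by
  have ha : ‖a‖ ≤ 1 / 8 := h.mem_norm hp.mem
  have hd := hp.dp
  have hd1 := pk_d_le h hp
  have hpn : (0 : ℝ) < 1 / 2 ^ n := by positivity
  have hpn1 : (1 : ℝ) / 2 ^ n ≤ 1 := by
    rw [div_le_one (by positivity)]; exact one_le_pow₀ (by norm_num)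
  rw [pow6] at hd1
  have hd1' : d ≤ 1 := by nlinarith
  have hr := rr_pos (n := n) hd
  have hr1 := rr_le (n := n) hd hd1'
  have hr2 : rr n d ≤ 1 / 2 ^ n * (1 / 64) := by nlinarith
  have hpoly : ∀ w, (next n s a d t).P - C w * (next n s a d t).Q =
      (s.P - C w * s.Q) * (X - C a) + C ((rr n d : ℝ) : ℂ) * s.Q := by
    intro w; simp only [next]; ring
  have hm1 : ∀ w, ((s.P - C w * s.Q) * (X - C a)).Monic := fun w => (h.mon w).mul (monic_X_sub_C a)
  have hd2 : ∀ w, ((s.P - C w * s.Q) * (X - C a)).natDegree = n + 2 := by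
    intro w
    rw [(h.mon w).natDegree_mul (monic_X_sub_C a), h.deg w, natDegree_X_sub_C]
  have hd3 : (C ((rr n d : ℝ) : ℂ) * s.Q).natDegree < n + 2 :=
    (natDegree_C_mul_le _ _).trans_lt (by have := h.degQ; omega)
  have out' : ∀ z w : ℂ, 1 ≤ ‖z‖ → ‖w‖ ≤ 1 / 8 → 0 < ‖(next n s a d t).Q.eval z‖ ∧
      (1 / 2 + 1 / (4 * 2 ^ (n + 1))) * ‖(next n s a d t).Q.eval z‖ ≤
        ‖((next n s a d t).P - C w * (next n s a d t).Q).eval z‖ := by
    intro z w hz hw
    obtain ⟨h1, h2⟩ := h.out z w hz hw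
    have hza : 7 / 8 ≤ ‖z - a‖ := by
      have := norm_sub_norm_le z a
      linarith
    have eQ : ‖(next n s a d t).Q.eval z‖ = ‖s.Q.eval z‖ * ‖z - a‖ := by
      simp [next]
    refine ⟨by rw [eQ]; positivity, ?_⟩
    rw [eQ, next_eval]
    have h3 : ‖(s.P - C w * s.Q).eval z * (z - a)‖ - ‖((rr n d : ℝ) : ℂ) * s.Q.eval z‖ ≤
        ‖(s.P - C w * s.Q).eval z * (z - a) + ((rr n d : ℝ) : ℂ) * s.Q.eval z‖ := by
      have := norm_sub_le_norm_add ((s.P - C w * s.Q).eval z * (z - a)) (((rr n d : ℝ) : ℂ) * s.Q.eval z)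
      exact this
    refine le_trans ?_ h3
    rw [norm_mul, norm_mul, norm_real, Real.norm_of_nonneg hr.le]
    have e1 : (1 : ℝ) / (4 * 2 ^ (n + 1)) = 1 / 2 ^ n * (1 / 8) := by
      rw [pow_succ]; field_simp; norm_num
    have e2 : (1 : ℝ) / (4 * 2 ^ n) = 1 / 2 ^ n * (1 / 4) := by field_simp
    rw [e1]
    rw [e2] at h2
    have h4 := mul_le_mul_of_nonneg_right h2 (norm_nonneg (z - a))
    have h5 : rr n d * ‖s.Q.eval z‖ ≤ (1 / 2 ^ n * (1 / 8)) * ‖s.Q.eval z‖ * ‖z - a‖ := by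
      have h6 : rr n d ≤ (1 / 2 ^ n * (1 / 8)) * ‖z - a‖ := by nlinarith
      calc rr n d * ‖s.Q.eval z‖ ≤ ((1 / 2 ^ n * (1 / 8)) * ‖z - a‖) * ‖s.Q.eval z‖ := by
            gcongr
        _ = _ := by ring
    have h7 : (1 / 2 + 1 / 2 ^ n * (1 / 8)) * (‖s.Q.eval z‖ * ‖z - a‖) =
        (1 / 2 + 1 / 2 ^ n * (1 / 4)) * ‖s.Q.eval z‖ * ‖z - a‖ -
          (1 / 2 ^ n * (1 / 8)) * ‖s.Q.eval z‖ * ‖z - a‖ := by ring
    rw [h7]
    linarith
  have hQa : s.Q.eval a ≠ 0 := by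
    intro h0
    obtain ⟨w, hw, hz⟩ := hp.mem
    apply h.cop a h0
    simpa [h0] using hz
  refine ⟨?_, ?_, ?_, ?_, ?_, out', ?_, ?_, ?_, ?_⟩
  · intro w
    rw [hpoly w]
    apply (hm1 w).add_of_left
    apply degree_lt_degree
    rw [hd2 w]; exact hd3
  · intro w
    rw [hpoly w, natDegree_add_eq_left_of_natDegree_lt (by rw [hd2 w]; exact hd3), hd2 w]
  · calc (s.Q * (X - C a)).natDegree ≤ s.Q.natDegree + (X - C a).natDegree := natDegree_mul_le
      _ ≤ n + 1 := by rw [natDegree_X_sub_C]; have := h.degQ; omega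
  · intro z hz
    simp only [next, eval_mul, eval_sub, eval_X, eval_C, norm_mul]
    rw [pow_succ]
    apply mul_le_mul (h.bdQ z hz) _ (norm_nonneg _) (by positivity)
    calc ‖z - a‖ ≤ ‖z‖ + ‖a‖ := norm_sub_le _ _
      _ ≤ 2 := by linarith
  · intro z hz
    have hz1 : ‖z‖ ≤ 1 := by
      obtain ⟨w, hw, hz⟩ := hz
      by_contra hcon
      push Not at hcon
      obtain ⟨h1, h2⟩ := out' z w hcon.le (hK.small' w hw)
      rw [hz, norm_zero] at h2
      have : 0 < (1 / 2 + 1 / (4 * 2 ^ (n + 1))) * ‖(next n s a d t).Q.eval z‖ := by positivity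
      linarith
    obtain ⟨y, hy, hzy⟩ := next_step (S := K) h hp hz1 hz
    have h1 := h.inn y hy
    have h2 : ‖z‖ ≤ ‖z - y‖ + ‖y‖ := by simpa using norm_add_le (z - y) y
    have e1 : (1 : ℝ) / (16 * 2 ^ n) = 1 / 2 ^ n * (1 / 16) := by field_simp
    have e2 : (1 : ℝ) / (16 * 2 ^ (n + 1)) = 1 / 2 ^ n * (1 / 32) := by
      rw [pow_succ]; field_simp; norm_num
    rw [e1] at h1; rw [e2]
    linarith
  · intro z hz h0
    simp only [next, eval_mul, eval_sub, eval_X, eval_C, eval_add] at hz h0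
    rcases mul_eq_zero.1 hz with h1 | h1
    · rw [h1, mul_zero, add_zero] at h0
      rcases mul_eq_zero.1 h0 with h2 | h2
      · exact h.cop z h1 h2
      · rw [sub_eq_zero.1 h2] at h1; exact hQa h1
    · rw [sub_eq_zero.1 h1] at h0
      simp only [sub_self, mul_zero, zero_add] at h0
      rcases mul_eq_zero.1 h0 with h2 | h2
      · exact hr.ne' (by exact_mod_cast h2)
      · exact hQa h2
  · simp only [next]; exact lt_min h.Tp hp.tp
  · simp only [next]; exact (min_le_left _ _).trans h.T1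
  · rw [Set.disjoint_left]
    rintro z ⟨w, hw, hz⟩ hzb
    simp only [next, mem_closedBall, dist_eq_norm] at hzb
    rw [next_eval] at hz
    have hzd : ‖z - a‖ ≤ d := by
      have : 3 * rr n d ≤ d := by nlinarith
      linarith
    have hsm := hp.sm z hzd
    have hQz : s.Q.eval z ≠ 0 := by
      intro h0
      rw [h0, norm_zero, mul_zero] at hsm
      exact h.cop z h0 (norm_le_zero_iff.1 hsm)
    have hQz' : 0 < ‖s.Q.eval z‖ := norm_pos_iff.2 hQz
    have h1 : ‖(s.P - C w * s.Q).eval z‖ ≤ 5 / 32 * ‖s.Q.eval z‖ := by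
      simp only [eval_sub, eval_mul, eval_C]
      calc ‖s.P.eval z - w * s.Q.eval z‖ ≤ ‖s.P.eval z‖ + ‖w * s.Q.eval z‖ := norm_sub_le _ _
        _ ≤ 3 / 32 * ‖s.Q.eval z‖ + 1 / 16 * ‖s.Q.eval z‖ := by
          rw [norm_mul]
          have := hK.small w hw
          gcongr
        _ = 5 / 32 * ‖s.Q.eval z‖ := by ring
    have h2 : (s.P - C w * s.Q).eval z * (z - a) = - (((rr n d : ℝ) : ℂ) * s.Q.eval z) := by
      linear_combination hz
    have h3 := congrArg norm h2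
    rw [norm_neg, norm_mul, norm_mul, norm_real, Real.norm_of_nonneg hr.le] at h3
    have h4 : ‖(s.P - C w * s.Q).eval z‖ * ‖z - a‖ ≤ 5 / 32 * ‖s.Q.eval z‖ * (3 * rr n d) :=
      mul_le_mul h1 hzb (norm_nonneg _) (by positivity)
    rw [h3] at h4
    have h5 : 0 < rr n d * ‖s.Q.eval z‖ := by positivity
    nlinarith

end Pool.Agent.Helper914.Iversen
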