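import Mathlib

set_option autoImplicit false
open Polynomial Complex Metric

namespace Pool.Agent.Helper914.Iversen

lemma pow_card_le (z : ℂ) (m : ℝ) (hm : 0 ≤ m) (s : Multiset ℂ) (h : ∀ x ∈ s, m ≤ ‖z - x‖) :
    m ^ (Multiset.card s) ≤ (s.map (fun x => ‖z - x‖)).prod := by
  induction s using Multiset.induction_on with
  | empty => simp
  | cons a s ih =>
    rw [Multiset.card_cons, Multiset.map_cons, Multiset.prod_cons, pow_succ']
    have h1 := h a (Multiset.mem_cons_self a s)
    have h2 := ih (fun x hx => h x (Multiset.mem_cons_of_mem hx))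
    exact mul_le_mul h1 h2 (pow_nonneg hm _) (hm.trans h1)

/-- a monic polynomial has a root near every point where it is small -/
lemma exists_root_near {q : ℂ[X]} {N : ℕ} (hq : q.Monic) (hN : q.natDegree = N) (hN0 : 0 < N)
    (z : ℂ) : ∃ x, q.eval x = 0 ∧ ‖z - x‖ ^ N ≤ ‖q.eval z‖ := by
  have hs := IsAlgClosed.splits q
  have hcard : Multiset.card q.roots = N := by
    rw [← hN]; exact splits_iff_card_roots.1 hs
  have hne : q.roots.toFinset.Nonempty := by
    rw [Finset.nonempty_iff_ne_empty]
    intro h
    have : q.roots = 0 := by rwa [Multiset.toFinset_eq_empty] at h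
    rw [this] at hcard
    simp at hcard
    omega
  obtain ⟨x, hx, hmin⟩ := Finset.exists_min_image q.roots.toFinset (fun x => ‖z - x‖) hne
  have hx' : x ∈ q.roots := by simpa using hx
  refine ⟨x, (mem_roots'.1 hx').2, ?_⟩
  have h1 := pow_card_le z ‖z - x‖ (norm_nonneg _) q.roots (fun y hy => hmin y (by simpa using hy))
  rw [hcard] at h1
  have h2 : q = (q.roots.map (fun a => X - C a)).prod := by
    have := Splits.eq_prod_roots_of_monic hs hq
    exact this
  have h3 : q.eval z = (q.roots.map (fun a => z - a)).prod := by
    conv_lhs => rw [h2]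
    rw [eval_multiset_prod, Multiset.map_map]
    simp
  have h4 : ‖q.eval z‖ = (q.roots.map (fun x => ‖z - x‖)).prod := by
    rw [h3]
    generalize q.roots = s
    induction s using Multiset.induction_on with
    | empty => simp
    | cons a s ih => simp [ih]
  rw [h4]; exact h1

end Pool.Agent.Helper914.Iversen
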