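import Pool.Agent.Helper914.Iversen.Next

set_option autoImplicit false
open Polynomial Complex Metric

namespace Pool.Agent.Helper914.Iversen

/-- partial sums -/
noncomputable def Fs (a : ℕ → ℂ) (r : ℕ → ℝ) (n : ℕ) (z : ℂ) : ℂ :=
  z + ∑ i ∈ Finset.range n, (r i : ℂ) / (z - a i)

structure Sys (K : Set ℂ) where
  a : ℕ → ℂ
  r : ℕ → ℝ
  d : ℕ → ℝ
  t : ℕ → ℝ
  Z : ℕ → Set ℂ
  a_small : ∀ n, ‖a n‖ ≤ 1 / 8
  d_pos : ∀ n, 0 < d n
  d_le : ∀ n, d n ≤ 1 / 2 ^ (n + 6)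
  r_eq : ∀ n, r n = d n ^ (n + 2) / 2 ^ n
  t_pos : ∀ n, 0 < t n
  t_le : ∀ n, t n ≤ 1 / 2 ^ (n + 6)
  dt : ∀ n k, n ≤ k → d k ≤ t n / 2 ^ (k + 6)
  Z_small : ∀ n, ∀ z ∈ Z n, ‖z‖ ≤ 1 / 8
  mem : ∀ n, a n ∈ Z n
  step : ∀ n, ∀ z ∈ Z (n + 1), ∃ y ∈ Z n, ‖z - y‖ ≤ d n
  sep : ∀ n, ∀ x ∈ Z (n + 1), ∀ y, ‖y - a n‖ ≤ 3 * r n → 2 * t (n + 1) ≤ ‖x - y‖
  cov : ∀ n, ∃ S : Finset ℂ, (S : Set ℂ) ⊆ Z n ∧ ∃ ρ : ℝ, 4 * t n ≤ ρ ∧
    (∀ x ∈ Z n, ∃ c ∈ S, ‖x - c‖ ≤ ρ) ∧ (S.card : ℝ) * ρ ≤ 1 / 2 ^ n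
  far : ∀ n, ∀ y ∈ Z n, infDist y (a '' {i | i < n}) ≤ infDist (a n) (a '' {i | i < n})
  sm : ∀ n z, ‖z - a n‖ ≤ d n → ‖Fs a r n z‖ ≤ 3 / 32
  sm' : ∀ n z, ‖z - a n‖ ≤ d n → ∀ i < n, z ≠ a i
  wit : ∀ n, ∀ w ∈ K, ∃ y, ‖y - a n‖ ≤ d n ∧ (∀ i < n + 1, y ≠ a i) ∧
    ‖Fs a r (n + 1) y - w‖ ≤ 1 / 2 ^ n ∧ ∀ x ∈ Z (n + 1), 2 * t (n + 1) ≤ ‖x - y‖
  root : ∀ n z w, w ∈ K → ‖z‖ ≤ 2 → (∀ i < n, z ≠ a i) →
    ∃ x ∈ Z n, ‖z - x‖ ^ (n + 1) ≤ 3 ^ n * ‖Fs a r n z - w‖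

section
variable (K : Set ℂ)

open Classical in
noncomputable def pick (n : ℕ) (s : St) : ℂ × ℝ × ℝ :=
  if h : ∃ x : ℂ × ℝ × ℝ, Pk K n s x.1 x.2.1 x.2.2 then h.choose else (0, 0, 0)

noncomputable def sq : ℕ → St
  | 0 => s0
  | n + 1 => next n (sq n) (pick K n (sq n)).1 (pick K n (sq n)).2.1 (pick K n (sq n)).2.2

noncomputable def aa (n : ℕ) : ℂ := (pick K n (sq K n)).1
noncomputable def dd (n : ℕ) : ℝ := (pick K n (sq K n)).2.1
noncomputable def tt (n : ℕ) : ℝ := (pick K n (sq K n)).2.2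
noncomputable def ra (n : ℕ) : ℝ := rr n (dd K n)
def ZZ (n : ℕ) : Set ℂ := Zs (sq K n).P (sq K n).Q K

variable {K}

lemma pick_spec (hK : KP K) {n : ℕ} {s : St} (h : Good K n s) :
    Pk K n s (pick K n s).1 (pick K n s).2.1 (pick K n s).2.2 := by
  have h1 : ∃ x : ℂ × ℝ × ℝ, Pk K n s x.1 x.2.1 x.2.2 := by
    obtain ⟨a, d, t, h2⟩ := exists_pick hK h
    exact ⟨(a, d, t), h2⟩
  unfold pick
  rw [dif_pos h1]
  exact h1.choose_spec

lemma good_sq (hK : KP K) : ∀ n, Good K n (sq K n)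
  | 0 => good_init hK
  | n + 1 => good_next hK (good_sq hK n) (pick_spec hK (good_sq hK n))

lemma pk_sq (hK : KP K) (n : ℕ) : Pk K n (sq K n) (aa K n) (dd K n) (tt K n) :=
  pick_spec hK (good_sq hK n)

lemma sq_succ (n : ℕ) : sq K (n + 1) = next n (sq K n) (aa K n) (dd K n) (tt K n) := rfl

lemma sq_A (n : ℕ) : ((sq K n).A : Set ℂ) = aa K '' {i | i < n} := by
  induction n with
  | zero => simp [sq, s0]
  | succ n ih =>
    rw [sq_succ]
    simp only [next, Finset.coe_insert, ih]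
    ext x
    constructor
    · rintro (rfl | ⟨i, hi, rfl⟩)
      · exact ⟨n, Nat.lt_succ_self n, rfl⟩
      · exact ⟨i, Nat.lt_succ_of_lt hi, rfl⟩
    · rintro ⟨i, hi, rfl⟩
      rcases Nat.lt_succ_iff_lt_or_eq.1 hi with h | h
      · exact Or.inr ⟨i, h, rfl⟩
      · subst h; exact Or.inl rfl

lemma sq_Q (n : ℕ) (z : ℂ) : (sq K n).Q.eval z = ∏ i ∈ Finset.range n, (z - aa K i) := by
  induction n with
  | zero => simp [sq, s0]
  | succ n ih =>
    rw [sq_succ, Finset.prod_range_succ, ← ih]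
    simp [next]

lemma sq_P (n : ℕ) (z : ℂ) (hz : ∀ i < n, z ≠ aa K i) :
    (sq K n).P.eval z = (sq K n).Q.eval z * Fs (aa K) (ra K) n z := by
  induction n with
  | zero => simp [sq, s0, Fs]
  | succ n ih =>
    have h1 := ih (fun i hi => hz i (Nat.lt_succ_of_lt hi))
    have h2 : z - aa K n ≠ 0 := sub_ne_zero.2 (hz n (Nat.lt_succ_self n))
    have h3 : Fs (aa K) (ra K) (n + 1) z = Fs (aa K) (ra K) n z + (ra K n : ℂ) / (z - aa K n) := by
      unfold Fs; rw [Finset.sum_range_succ]; ring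
    rw [sq_succ, h3]
    simp only [next, eval_mul, eval_add, eval_sub, eval_X, eval_C, h1]
    have h4 : ((rr n (dd K n) : ℝ) : ℂ) = (ra K n : ℂ) := rfl
    rw [h4]
    field_simp

lemma sq_Q_ne (n : ℕ) (z : ℂ) (hz : ∀ i < n, z ≠ aa K i) : (sq K n).Q.eval z ≠ 0 := by
  rw [sq_Q, Finset.prod_ne_zero_iff]
  intro i hi
  exact sub_ne_zero.2 (hz i (Finset.mem_range.1 hi))

lemma sq_T (n k : ℕ) (h : n < k) : (sq K k).T ≤ tt K n := by
  induction k with
  | zero => omega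
  | succ k ih =>
    rw [sq_succ]
    simp only [next]
    rcases Nat.lt_succ_iff_lt_or_eq.1 h with h1 | h1
    · exact (min_le_left _ _).trans (ih h1)
    · subst h1; exact min_le_right _ _

lemma ne_of_not {n : ℕ} (hK : KP K) {z : ℂ} {c : ℝ}
    (h : ‖(sq K n).P.eval z‖ ≤ c * ‖(sq K n).Q.eval z‖) : ∀ i < n, z ≠ aa K i := by
  intro i hi hz
  have h0 : (sq K n).Q.eval z = 0 := by
    rw [sq_Q, Finset.prod_eq_zero_iff]
    exact ⟨i, Finset.mem_range.2 hi, by rw [hz, sub_self]⟩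
  rw [h0, norm_zero, mul_zero] at h
  exact (good_sq hK n).cop z h0 (norm_le_zero_iff.1 h)

end

theorem exists_sys {K : Set ℂ} (hK : KP K) : Nonempty (Sys K) := by
  refine ⟨{
    a := aa K, r := ra K, d := dd K, t := tt K, Z := ZZ K
    a_small := fun n => (good_sq hK n).mem_norm (pk_sq hK n).mem
    d_pos := fun n => (pk_sq hK n).dp
    d_le := fun n => pk_d_le (good_sq hK n) (pk_sq hK n)
    r_eq := fun n => rfl
    t_pos := fun n => (pk_sq hK n).tp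
    t_le := fun n => (pk_sq hK n).ts
    dt := ?_
    Z_small := fun n z hz => (good_sq hK n).mem_norm hz
    mem := fun n => (pk_sq hK n).mem
    step := ?_
    sep := ?_
    cov := fun n => (pk_sq hK n).cov
    far := ?_
    sm := ?_
    sm' := fun n z hz => ne_of_not hK ((pk_sq hK n).sm z hz)
    wit := ?_
    root := ?_ }⟩
  · intro n k hnk
    apply (pk_sq hK k).ds.trans
    gcongr
    rcases Nat.lt_or_ge n k with h | h
    · exact (min_le_left _ _).trans (sq_T n k h)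
    · have : n = k := le_antisymm hnk h
      subst this; exact min_le_right _ _
  · intro n z hz
    have h1 := (good_sq hK (n + 1)).mem_norm hz
    exact next_step (S := K) (good_sq hK n) (pk_sq hK n) (by linarith) hz
  · intro n x hx y hy
    apply (pk_sq hK (n + 1)).sepb x hx y
    rw [mem_closedBall, dist_eq_norm]
    exact hy
  · intro n y hy
    have := (pk_sq hK n).far y hy
    rwa [sq_A] at this
  · intro n z hz
    have h1 := (pk_sq hK n).sm z hz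
    have h2 := ne_of_not hK h1
    rw [sq_P n z h2, norm_mul] at h1
    have h3 : 0 < ‖(sq K n).Q.eval z‖ := norm_pos_iff.2 (sq_Q_ne n z h2)
    have h4 : ‖(sq K n).Q.eval z‖ * ‖Fs (aa K) (ra K) n z‖ ≤ ‖(sq K n).Q.eval z‖ * (3 / 32) := by
      linarith
    exact le_of_mul_le_mul_left h4 h3
  · intro n w hw
    set w' : ℂ := w + ((1 / 2 ^ (n + 1 + 6) : ℝ) : ℂ) * I with hw'
    have hw's : w' ∈ sh K (n + 1) := ⟨w, hw, rfl⟩
    obtain ⟨y, hy, hay⟩ := exists_root_near ((good_sq hK (n + 1)).mon w')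
      ((good_sq hK (n + 1)).deg w') (by omega) (aa K n)
    rw [sq_succ, next_eval, sub_self, mul_zero, zero_add, norm_mul, norm_real,
      Real.norm_of_nonneg (rr_pos (pk_sq hK n).dp).le] at hay
    have h1 : ‖aa K n‖ ≤ 1 := by
      have := (good_sq hK n).mem_norm (pk_sq hK n).mem
      linarith
    have h2 : ‖aa K n - y‖ ^ (n + 1 + 1) ≤ dd K n ^ (n + 1 + 1) := by
      refine hay.trans ?_
      calc rr n (dd K n) * ‖(sq K n).Q.eval (aa K n)‖ ≤ rr n (dd K n) * 2 ^ n :=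
            mul_le_mul_of_nonneg_left ((good_sq hK n).bdQ _ h1) (rr_pos (pk_sq hK n).dp).le
        _ = dd K n ^ (n + 1 + 1) := by unfold rr; field_simp
    have h3 : ‖aa K n - y‖ ≤ dd K n :=
      le_of_pow_le_pow_left₀ (by omega) (pk_sq hK n).dp.le h2
    have h4 : ∀ i < n + 1, y ≠ aa K i := by
      apply ne_of_not hK (c := ‖w'‖)
      simp only [eval_sub, eval_mul, eval_C] at hy
      have : (sq K (n + 1)).P.eval y = w' * (sq K (n + 1)).Q.eval y := by linear_combination hy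
      rw [this, norm_mul]
    refine ⟨y, by rw [norm_sub_rev]; exact h3, h4, ?_, ?_⟩
    · simp only [eval_sub, eval_mul, eval_C] at hy
      rw [sq_P (n + 1) y h4] at hy
      have h5 : (sq K (n + 1)).Q.eval y * (Fs (aa K) (ra K) (n + 1) y - w') = 0 := by
        linear_combination hy
      have h6 := (mul_eq_zero.1 h5).resolve_left (sq_Q_ne (n + 1) y h4)
      have h7 : Fs (aa K) (ra K) (n + 1) y - w = ((1 / 2 ^ (n + 1 + 6) : ℝ) : ℂ) * I := by
        rw [hw'] at h6; linear_combination h6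
      rw [h7, norm_mul, norm_I, mul_one, norm_real, Real.norm_of_nonneg (by positivity)]
      apply one_div_le_one_div_of_le (by positivity)
      exact pow_le_pow_right₀ (by norm_num) (by omega)
    · intro x hx
      exact (pk_sq hK (n + 1)).sep x hx y ⟨w', hw's, hy⟩
  · intro n z w hw hz hza
    obtain ⟨x, hx, hxz⟩ := exists_root_near ((good_sq hK n).mon w) ((good_sq hK n).deg w)
      (by omega) z
    refine ⟨x, ⟨w, hw, hx⟩, hxz.trans ?_⟩
    simp only [eval_sub, eval_mul, eval_C]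
    rw [sq_P n z hza]
    have h1 : (sq K n).Q.eval z * Fs (aa K) (ra K) n z - w * (sq K n).Q.eval z =
        (sq K n).Q.eval z * (Fs (aa K) (ra K) n z - w) := by ring
    rw [h1, norm_mul]
    apply mul_le_mul_of_nonneg_right _ (norm_nonneg _)
    rw [sq_Q, norm_prod]
    calc ∏ i ∈ Finset.range n, ‖z - aa K i‖ ≤ ∏ i ∈ Finset.range n, (3 : ℝ) := by
          apply Finset.prod_le_prod (fun i _ => norm_nonneg _)
          intro i _
          have := (good_sq hK i).mem_norm (pk_sq hK i).mem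
          calc ‖z - aa K i‖ ≤ ‖z‖ + ‖aa K i‖ := norm_sub_le _ _
            _ ≤ 3 := by linarith
      _ = 3 ^ n := by simp

end Pool.Agent.Helper914.Iversen
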