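import Pool.Agent.Helper914.Iversen.Acc

set_option autoImplicit false
open Complex Metric Filter Topology Set

namespace Pool.Agent.Helper914.Iversen

/-- a boundary point that lies on the boundary of an exterior disc is an essential singularity -/
theorem ext_ball {V : Set ℂ} (hV : IsOpen V) {ξ c : ℂ} {R : ℝ} (hR : 0 < R) (hξc : ‖ξ - c‖ = R)
    (hξ : ξ ∈ closure V) (hsep : ∀ z ∈ V, R < ‖z - c‖) :
    ∃ g : ℂ → ℂ, DifferentiableOn ℂ g V ∧ (∀ z ∈ V, ‖g z‖ ≤ 2) ∧
      ∀ ρ > 0, ∀ G : ℂ → ℂ, DifferentiableOn ℂ G (V ∪ ball ξ ρ) → (∀ z ∈ V, G z = g z) → False := by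
  have hξne : ξ - c ≠ 0 := by
    rw [← norm_pos_iff, hξc]; exact hR
  have hne : ∀ z ∈ V, z - c ≠ 0 := by
    intro z hz
    rw [← norm_pos_iff]
    exact hR.trans (hsep z hz)
  have hlt : ∀ z ∈ V, ‖(ξ - c) / (z - c)‖ < 1 := by
    intro z hz
    rw [norm_div, hξc, div_lt_one (hR.trans (hsep z hz))]
    exact hsep z hz
  have hslit : ∀ z ∈ V, 1 - (ξ - c) / (z - c) ∈ slitPlane := by
    intro z hz
    left
    have h1 := (abs_le.1 (abs_re_le_norm ((ξ - c) / (z - c)))).2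
    have h2 := hlt z hz
    rw [sub_re, one_re]; linarith
  refine ⟨fun z => (1 - (ξ - c) / (z - c)) ^ (((2 : ℕ) : ℂ)⁻¹), ?_, ?_, ?_⟩
  · intro z hz
    apply DifferentiableAt.differentiableWithinAt
    have h1 : DifferentiableAt ℂ (fun z => 1 - (ξ - c) / (z - c)) z := by
      have := hne z hz
      fun_prop (disch := exact this)
    exact DifferentiableAt.cpow h1 (differentiableAt_const _) (hslit z hz)
  · intro z hz
    have h1 : ((1 - (ξ - c) / (z - c)) ^ (((2 : ℕ) : ℂ)⁻¹)) ^ 2 = 1 - (ξ - c) / (z - c) :=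
      Complex.cpow_nat_inv_pow _ (by norm_num)
    have h2 : ‖(1 - (ξ - c) / (z - c)) ^ (((2 : ℕ) : ℂ)⁻¹)‖ ^ 2 ≤ 2 := by
      rw [← norm_pow, h1]
      refine (norm_sub_le _ _).trans ?_
      rw [norm_one]; linarith [hlt z hz]
    nlinarith [norm_nonneg ((1 - (ξ - c) / (z - c)) ^ (((2 : ℕ) : ℂ)⁻¹))]
  · intro ρ hρ G hG hGg
    have hsq : ∀ z ∈ V, G z ^ 2 * (z - c) = z - ξ := by
      intro z hz
      have h1 : ((1 - (ξ - c) / (z - c)) ^ (((2 : ℕ) : ℂ)⁻¹)) ^ 2 = 1 - (ξ - c) / (z - c) :=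
        Complex.cpow_nat_inv_pow _ (by norm_num)
      rw [hGg z hz, h1]
      have := hne z hz
      field_simp
      ring
    have hGb : DifferentiableOn ℂ G (ball ξ ρ) := hG.mono subset_union_right
    have hA1 : AnalyticOnNhd ℂ (fun z => G z ^ 2 * (z - c)) (ball ξ ρ) := by
      apply DifferentiableOn.analyticOnNhd _ isOpen_ball
      exact (hGb.pow 2).mul (by fun_prop)
    have hA2 : AnalyticOnNhd ℂ (fun z => z - ξ) (ball ξ ρ) := by
      apply DifferentiableOn.analyticOnNhd _ isOpen_ball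
      fun_prop
    obtain ⟨z1, hz1V, hz1⟩ := Metric.mem_closure_iff.1 hξ ρ hρ
    have hz1b : z1 ∈ ball ξ ρ := by rwa [mem_ball']
    have hev : (fun z => G z ^ 2 * (z - c)) =ᶠ[𝓝 z1] fun z => z - ξ := by
      filter_upwards [hV.mem_nhds hz1V] with z hz
      exact hsq z hz
    have heq := hA1.eqOn_of_preconnected_of_eventuallyEq hA2
      (convex_ball ξ ρ).isPreconnected hz1b hev
    have hξb : ξ ∈ ball ξ ρ := mem_ball_self hρ
    have h0 : G ξ ^ 2 * (ξ - c) = 0 := by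
      have := heq hξb
      simpa using this
    have hGξ : G ξ = 0 := by
      have := (mul_eq_zero.1 h0).resolve_right hξne
      exact pow_eq_zero_iff (by norm_num) |>.1 this
    have hGd : HasDerivAt G (deriv G ξ) ξ :=
      (hGb.differentiableAt (isOpen_ball.mem_nhds hξb)).hasDerivAt
    have hd1 : HasDerivAt (fun z => G z ^ 2 * (z - c))
        ((2 : ℕ) * G ξ ^ (2 - 1) * deriv G ξ * (ξ - c) + G ξ ^ 2 * 1) ξ :=
      (hGd.fun_pow 2).mul ((hasDerivAt_id ξ).sub_const c)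
    have hd2 : HasDerivAt (fun z => z - ξ) 1 ξ := (hasDerivAt_id ξ).sub_const ξ
    have hev2 : (fun z => G z ^ 2 * (z - c)) =ᶠ[𝓝 ξ] fun z => z - ξ := by
      filter_upwards [isOpen_ball.mem_nhds hξb] with z hz
      exact heq hz
    have hd3 := hd2.congr_of_eventuallyEq hev2
    have := hd1.unique hd3
    rw [hGξ] at this
    simp at this

namespace Sys
variable {K : Set ℂ} (S : Sys K)

/-- every boundary point of `V` is an essential singularity of a bounded analytic function -/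
theorem ess (hKne : K.Nonempty) (hK : ∀ w ∈ K, ‖w‖ ≤ 1 / 16) {ξ : ℂ} (hξ : ξ ∈ frontier S.V) :
    ∃ g : ℂ → ℂ, DifferentiableOn ℂ g S.V ∧ (∀ z ∈ S.V, ‖g z‖ ≤ 3) ∧
      ∀ ρ > 0, ∀ G : ℂ → ℂ, DifferentiableOn ℂ G (S.V ∪ ball ξ ρ) → (∀ z ∈ S.V, G z = g z) → False := by
  have hcl : ξ ∈ closure S.V := frontier_subset_closure hξ
  have hnV : ξ ∉ S.V := by
    rw [S.isOpen_V.frontier_eq] at hξ
    exact hξ.2
  have hcb : ‖ξ‖ ≤ 2 := by
    have h1 : closure S.V ⊆ closedBall 0 2 :=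
      closure_minimal (fun z hz => ball_subset_closedBall hz.1) isClosed_closedBall
    simpa using h1 hcl
  rcases hcb.eq_or_lt with h2 | h2
  · obtain ⟨g, h3, h4, h5⟩ := ext_ball S.isOpen_V (ξ := ξ) (c := (3 / 2 : ℝ) • ξ) (R := 1) one_pos (by
      have : ξ - (3 / 2 : ℝ) • ξ = (-(1 / 2) : ℝ) • ξ := by
        rw [← one_smul ℝ ξ, smul_smul, ← sub_smul]; norm_num
      rw [this, norm_smul, h2]; norm_num) hcl (by
      intro z hz
      have h3 : ‖z‖ < 2 := by simpa using hz.1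
      have h4 : ‖(3 / 2 : ℝ) • ξ‖ = 3 := by rw [norm_smul, h2]; norm_num
      have h5 := norm_sub_norm_le ((3 / 2 : ℝ) • ξ) z
      rw [norm_sub_rev] at h5
      linarith)
    exact ⟨g, h3, fun z hz => (h4 z hz).trans (by norm_num), h5⟩
  have hE : ξ ∈ S.E := by
    by_contra hcon
    exact hnV ⟨by simpa using h2, hcon⟩
  by_cases hhole : ∃ j, ‖ξ - S.a j‖ ≤ S.r j
  · obtain ⟨j, hj⟩ := hhole
    have hj' : ‖ξ - S.a j‖ = S.r j := by
      apply le_antisymm hj
      by_contra hcon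
      push Not at hcon
      obtain ⟨z, hzV, hz⟩ := Metric.mem_closure_iff.1 hcl (S.r j - ‖ξ - S.a j‖) (by linarith)
      apply hzV.2
      apply S.hole_sub_E (j := j)
      rw [dist_eq_norm] at hz
      have h6 : ‖z - S.a j‖ ≤ ‖z - ξ‖ + ‖ξ - S.a j‖ := by
        have := norm_add_le (z - ξ) (ξ - S.a j); simpa using this
      rw [norm_sub_rev z ξ] at h6
      linarith
    obtain ⟨g, h3, h4, h5⟩ := ext_ball S.isOpen_V (S.r_pos j) hj' hcl (by
      intro z hz
      by_contra hcon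
      push Not at hcon
      exact hz.2 (S.hole_sub_E hcon))
    exact ⟨g, h3, fun z hz => (h4 z hz).trans (by norm_num), h5⟩
  · push Not at hhole
    refine ⟨S.F, S.differentiableOn_F, fun z hz => S.F_bdd hz, ?_⟩
    intro ρ hρ G hG hGF
    have hGc : ContinuousAt G ξ := by
      have h3 : DifferentiableOn ℂ G (ball ξ ρ) := hG.mono subset_union_right
      exact (h3.differentiableAt (isOpen_ball.mem_nhds (mem_ball_self hρ))).continuousAt
    obtain ⟨ρ', hρ', hc⟩ := Metric.continuousAt_iff.1 hGc (1 / 100) (by norm_num)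
    obtain ⟨N1, hN1⟩ := exists_small (show 0 < ρ' / 4 by positivity)
    obtain ⟨N2, hN2⟩ := exists_small (show (0 : ℝ) < 1 / 200 by norm_num)
    obtain ⟨j, hj, hjρ⟩ := S.limit_pole hE hhole (show 0 < ρ' / 4 by positivity) (max (max N1 N2) 6)
    have hj6 : 6 ≤ j := (le_max_right _ _).trans hj
    have hj1 : N1 ≤ j := (le_max_left _ _).trans ((le_max_left _ _).trans hj)
    have hj2 : N2 ≤ j := (le_max_right _ _).trans ((le_max_left _ _).trans hj)
    have hdj : S.d j < ρ' / 4 := (S.d_le j).trans_lt (hN1 (j + 6) (by omega))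
    have hdp := S.d_pos j
    have hrj := S.r_le' j
    have hrp := S.r_pos j
    obtain ⟨w, hw⟩ := hKne
    obtain ⟨y, hyV, hy1, hy2⟩ := S.witness hK hj6 hw
    have hsm := hN2 j hj2
    have hy3 : ‖S.F y‖ ≤ 1 / 16 + 1 / 100 := by
      have h3 : ‖S.F y‖ ≤ ‖S.F y - w‖ + ‖w‖ := by simpa using norm_add_le (S.F y - w) w
      have h4 := hK w hw
      have h5 : (2 : ℝ) / 2 ^ j = 2 * (1 / 2 ^ j) := by ring
      linarith
    have hpn : ‖(S.a j + ((2 * S.r j : ℝ) : ℂ)) - S.a j‖ = 2 * S.r j := by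
      rw [add_sub_cancel_left, norm_real, Real.norm_of_nonneg (by linarith)]
    have hpV : S.a j + ((2 * S.r j : ℝ) : ℂ) ∈ S.V :=
      S.annulus (n := j) (by rw [hpn]; linarith) (by rw [hpn]; linarith)
    have hpF : 1 / 4 ≤ ‖S.F (S.a j + ((2 * S.r j : ℝ) : ℂ))‖ := by
      apply S.F_collar (n := j) hpn.le
      intro h0
      rw [h0, sub_self, norm_zero] at hpn
      linarith
    have hd1 : dist y ξ < ρ' := by
      rw [dist_eq_norm]
      have h3 : ‖y - ξ‖ ≤ ‖y - S.a j‖ + ‖S.a j - ξ‖ := by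
        have := norm_add_le (y - S.a j) (S.a j - ξ); simpa using this
      rw [norm_sub_rev (S.a j) ξ] at h3
      linarith
    have hd2 : dist (S.a j + ((2 * S.r j : ℝ) : ℂ)) ξ < ρ' := by
      rw [dist_eq_norm]
      have h3 : ‖S.a j + ((2 * S.r j : ℝ) : ℂ) - ξ‖ ≤
          ‖(S.a j + ((2 * S.r j : ℝ) : ℂ)) - S.a j‖ + ‖S.a j - ξ‖ := by
        have := norm_add_le ((S.a j + ((2 * S.r j : ℝ) : ℂ)) - S.a j) (S.a j - ξ)
        rwa [sub_add_sub_cancel] at this
      rw [norm_sub_rev (S.a j) ξ, hpn] at h3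
      linarith
    have h3 := hc hd1
    have h4 := hc hd2
    rw [hGF y hyV, dist_eq_norm] at h3
    rw [hGF _ hpV, dist_eq_norm] at h4
    have h5 : ‖S.F (S.a j + ((2 * S.r j : ℝ) : ℂ))‖ ≤
        ‖S.F (S.a j + ((2 * S.r j : ℝ) : ℂ)) - G ξ‖ + (‖G ξ - S.F y‖ + ‖S.F y‖) := by
      have e1 := norm_add_le (S.F (S.a j + ((2 * S.r j : ℝ) : ℂ)) - G ξ) (G ξ)
      have e2 := norm_add_le (G ξ - S.F y) (S.F y)
      simp only [sub_add_cancel] at e1 e2
      linarith
    rw [norm_sub_rev (G ξ)] at h5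
    linarith

end Sys
end Pool.Agent.Helper914.Iversen
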