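import Pool.Agent.Helper914.Iversen.Pol

set_option autoImplicit false
open Polynomial Complex Metric

namespace Pool.Agent.Helper914.Iversen

/-- a compact real set with good covers -/
structure KP (K : Set ℂ) : Prop where
  cpt : IsCompact K
  ne : K.Nonempty
  small : ∀ w ∈ K, ‖w‖ ≤ 1 / 16
  real : ∀ w ∈ K, w.im = 0
  thin : ∀ (N : ℕ) (M ε : ℝ), 0 < ε → ∃ S : Finset ℂ, (S : Set ℂ) ⊆ K ∧ ∃ ρ : ℝ, 0 < ρ ∧
    (∀ w ∈ K, ∃ w' ∈ S, ‖w - w'‖ * M ≤ ρ ^ N) ∧ (S.card : ℝ) * ρ ≤ ε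

/-- zero set -/
def Zs (P Q : ℂ[X]) (S : Set ℂ) : Set ℂ := {z | ∃ w ∈ S, (P - C w * Q).eval z = 0}

structure St where
  P : ℂ[X]
  Q : ℂ[X]
  A : Finset ℂ
  T : ℝ
  c : ℂ
  ρ : ℝ

structure Good (K : Set ℂ) (n : ℕ) (s : St) : Prop where
  mon : ∀ w, (s.P - C w * s.Q).Monic
  deg : ∀ w, (s.P - C w * s.Q).natDegree = n + 1
  degQ : s.Q.natDegree ≤ n
  bdQ : ∀ z : ℂ, ‖z‖ ≤ 1 → ‖s.Q.eval z‖ ≤ 2 ^ n
  inn : ∀ z ∈ Zs s.P s.Q K, ‖z‖ ≤ 1 / 8 - 1 / (16 * 2 ^ n)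
  out : ∀ z w : ℂ, 1 ≤ ‖z‖ → ‖w‖ ≤ 1 / 8 → 0 < ‖s.Q.eval z‖ ∧
    (1 / 2 + 1 / (4 * 2 ^ n)) * ‖s.Q.eval z‖ ≤ ‖(s.P - C w * s.Q).eval z‖
  cop : ∀ z, s.Q.eval z = 0 → s.P.eval z ≠ 0
  Tp : 0 < s.T
  T1 : s.T ≤ 1
  dis : Disjoint (Zs s.P s.Q K) (closedBall s.c s.ρ)

noncomputable def rr (n : ℕ) (d : ℝ) : ℝ := d ^ (n + 2) / 2 ^ n

open Classical in
noncomputable def next (n : ℕ) (s : St) (a : ℂ) (d t : ℝ) : St where
  P := s.P * (X - C a) + C ((rr n d : ℝ) : ℂ) * s.Q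
  Q := s.Q * (X - C a)
  A := insert a s.A
  T := min s.T t
  c := a
  ρ := 3 * rr n d

/-- the shifted set -/
def sh (K : Set ℂ) (n : ℕ) : Set ℂ := (fun w : ℂ => w + ((1 / 2 ^ (n + 6) : ℝ) : ℂ) * I) '' K

structure Pk (K : Set ℂ) (n : ℕ) (s : St) (a : ℂ) (d t : ℝ) : Prop where
  mem : a ∈ Zs s.P s.Q K
  far : ∀ y ∈ Zs s.P s.Q K, infDist y s.A ≤ infDist a s.A
  tp : 0 < t
  ts : t ≤ 1 / 2 ^ (n + 6)
  sep : ∀ x ∈ Zs s.P s.Q K, ∀ y ∈ Zs s.P s.Q (sh K n), 2 * t ≤ ‖x - y‖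
  sepb : ∀ x ∈ Zs s.P s.Q K, ∀ y ∈ closedBall s.c s.ρ, 2 * t ≤ ‖x - y‖
  cov : ∃ S : Finset ℂ, (S : Set ℂ) ⊆ Zs s.P s.Q K ∧ ∃ ρ : ℝ, 4 * t ≤ ρ ∧
    (∀ x ∈ Zs s.P s.Q K, ∃ c ∈ S, ‖x - c‖ ≤ ρ) ∧ (S.card : ℝ) * ρ ≤ 1 / 2 ^ n
  dp : 0 < d
  ds : d ≤ min s.T t / 2 ^ (n + 6)
  sm : ∀ z, ‖z - a‖ ≤ d → ‖s.P.eval z‖ ≤ 3 / 32 * ‖s.Q.eval z‖

lemma rr_pos {n : ℕ} {d : ℝ} (h : 0 < d) : 0 < rr n d := by unfold rr; positivity

lemma rr_le {n : ℕ} {d : ℝ} (h : 0 < d) (h1 : d ≤ 1) : rr n d ≤ d ^ 2 := by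
  unfold rr
  rw [div_le_iff₀ (by positivity)]
  calc d ^ (n + 2) = d ^ n * d ^ 2 := by rw [pow_add]
    _ ≤ 1 * d ^ 2 := by gcongr; exact pow_le_one₀ h.le h1
    _ = d ^ 2 * 1 := by ring
    _ ≤ d ^ 2 * 2 ^ n := by gcongr; exact one_le_pow₀ (by norm_num)

lemma sh_small {K : Set ℂ} (hK : KP K) (n : ℕ) {w : ℂ} (hw : w ∈ sh K n) : ‖w‖ ≤ 1 / 8 := by
  obtain ⟨v, hv, rfl⟩ := hw
  have h1 := hK.small v hv
  have h2 : ‖((1 / 2 ^ (n + 6) : ℝ) : ℂ) * I‖ ≤ 1 / 64 := by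
    rw [norm_mul, norm_I, mul_one, norm_real, Real.norm_of_nonneg (by positivity)]
    have : (64 : ℝ) ≤ 2 ^ (n + 6) := by
      calc (64 : ℝ) = 2 ^ 6 := by norm_num
        _ ≤ 2 ^ (n + 6) := pow_le_pow_right₀ (by norm_num) (by omega)
    exact one_div_le_one_div_of_le (by norm_num) this
  calc ‖v + ((1 / 2 ^ (n + 6) : ℝ) : ℂ) * I‖ ≤ ‖v‖ + ‖((1 / 2 ^ (n + 6) : ℝ) : ℂ) * I‖ :=
        norm_add_le _ _
    _ ≤ 1 / 8 := by linarith

lemma Good.norm_le {K : Set ℂ} {n : ℕ} {s : St} (h : Good K n s) {S : Set ℂ}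
    (hS : ∀ w ∈ S, ‖w‖ ≤ 1 / 8) {z : ℂ} (hz : z ∈ Zs s.P s.Q S) : ‖z‖ ≤ 1 := by
  obtain ⟨w, hw, hz⟩ := hz
  by_contra hcon
  push Not at hcon
  obtain ⟨h1, h2⟩ := h.out z w hcon.le (hS w hw)
  rw [hz, norm_zero] at h2
  have : 0 < (1 / 2 + 1 / (4 * 2 ^ n)) * ‖s.Q.eval z‖ := by positivity
  linarith

lemma Good.compact {K : Set ℂ} {n : ℕ} {s : St} (h : Good K n s) {S : Set ℂ} (hc : IsCompact S)
    (hS : ∀ w ∈ S, ‖w‖ ≤ 1 / 8) : IsCompact (Zs s.P s.Q S) := by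
  have h1 : IsCompact ((closedBall (0 : ℂ) 1 ×ˢ S) ∩ {p : ℂ × ℂ | s.P.eval p.1 - p.2 * s.Q.eval p.1 = 0}) := by
    apply ((isCompact_closedBall _ _).prod hc).inter_right
    exact isClosed_eq (by fun_prop) continuous_const
  have h2 := h1.image continuous_fst
  convert! h2 using 1
  ext z
  constructor
  · intro hz
    have h3 := h.norm_le hS hz
    obtain ⟨w, hw, hz⟩ := hz
    refine ⟨(z, w), ⟨⟨by simpa using h3, hw⟩, ?_⟩, rfl⟩
    simpa using hz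
  · rintro ⟨⟨z', w⟩, ⟨⟨h3, h4⟩, h5⟩, rfl⟩
    exact ⟨w, h4, by simpa using h5⟩

lemma KP.small' {K : Set ℂ} (hK : KP K) : ∀ w ∈ K, ‖w‖ ≤ 1 / 8 :=
  fun w hw => (hK.small w hw).trans (by norm_num)

lemma Good.nonempty {K : Set ℂ} (hK : KP K) {n : ℕ} {s : St} (h : Good K n s) :
    (Zs s.P s.Q K).Nonempty := by
  obtain ⟨w, hw⟩ := hK.ne
  obtain ⟨x, hx, -⟩ := exists_root_near (h.mon w) (h.deg w) (by omega) 0
  exact ⟨x, w, hw, hx⟩

lemma Good.cover {K : Set ℂ} (hK : KP K) {n : ℕ} {s : St} (h : Good K n s) {ε : ℝ} (hε : 0 < ε) :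
    ∃ S : Finset ℂ, (S : Set ℂ) ⊆ Zs s.P s.Q K ∧ ∃ ρ : ℝ, 0 < ρ ∧
    (∀ x ∈ Zs s.P s.Q K, ∃ c ∈ S, ‖x - c‖ ≤ ρ) ∧ (S.card : ℝ) * ρ ≤ ε := by
  classical
  obtain ⟨S, hS, ρ, hρ, hcov, hcard⟩ := hK.thin (n + 1) (2 ^ n) (ε / (n + 1)) (by positivity)
  refine ⟨S.biUnion (fun w => (s.P - C w * s.Q).roots.toFinset), ?_, ρ, hρ, ?_, ?_⟩
  · intro x hx
    simp only [Finset.coe_biUnion, Set.mem_iUnion, Finset.mem_coe, Multiset.mem_toFinset] at hx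
    obtain ⟨w, hw, hx⟩ := hx
    exact ⟨w, hS hw, (mem_roots'.1 hx).2⟩
  · intro x hx
    have hx1 := h.norm_le hK.small' hx
    obtain ⟨w, hw, hx⟩ := hx
    obtain ⟨w', hw', hww⟩ := hcov w hw
    obtain ⟨c, hc, hxc⟩ := exists_root_near (h.mon w') (h.deg w') (by omega) x
    refine ⟨c, ?_, ?_⟩
    · rw [Finset.mem_biUnion]
      exact ⟨w', hw', by rw [Multiset.mem_toFinset, mem_roots (h.mon w').ne_zero]; exact hc⟩
    · have h2 : (s.P - C w' * s.Q).eval x = (w - w') * s.Q.eval x := by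
        have : (s.P - C w' * s.Q).eval x = (s.P - C w * s.Q).eval x + (w - w') * s.Q.eval x := by
          simp; ring
        rw [this, hx, zero_add]
      rw [h2, norm_mul] at hxc
      have h3 : ‖x - c‖ ^ (n + 1) ≤ ρ ^ (n + 1) :=
        hxc.trans ((mul_le_mul_of_nonneg_left (h.bdQ x hx1) (norm_nonneg _)).trans hww)
      exact le_of_pow_le_pow_left₀ (by omega) hρ.le h3
  · have h1 : ((S.biUnion (fun w => (s.P - C w * s.Q).roots.toFinset)).card : ℝ) ≤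
        S.card * (n + 1) := by
      have : (S.biUnion (fun w => (s.P - C w * s.Q).roots.toFinset)).card ≤ S.card * (n + 1) := by
        apply Finset.card_biUnion_le_card_mul
        intro w _
        calc (s.P - C w * s.Q).roots.toFinset.card ≤ Multiset.card (s.P - C w * s.Q).roots :=
              Multiset.toFinset_card_le _
          _ ≤ (s.P - C w * s.Q).natDegree := card_roots' _
          _ = n + 1 := h.deg w
      exact_mod_cast this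
    calc ((S.biUnion (fun w => (s.P - C w * s.Q).roots.toFinset)).card : ℝ) * ρ
        ≤ S.card * (n + 1) * ρ := by gcongr
      _ = (S.card * ρ) * (n + 1) := by ring
      _ ≤ ε / (n + 1) * (n + 1) := by gcongr
      _ = ε := by field_simp

lemma sep_of_compact {X Y : Set ℂ} (hX : IsCompact X) (hY : IsCompact Y) (hd : Disjoint X Y) :
    ∃ t : ℝ, 0 < t ∧ ∀ x ∈ X, ∀ y ∈ Y, 2 * t ≤ ‖x - y‖ := by
  obtain ⟨r, hr, h⟩ := hd.exists_thickenings hX hY.isClosed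
  refine ⟨r / 2, by positivity, ?_⟩
  intro x hx y hy
  by_contra hcon
  push Not at hcon
  have h1 : x ∈ thickening r X := self_subset_thickening hr X hx
  have h2 : x ∈ thickening r Y := by
    rw [mem_thickening_iff]
    refine ⟨y, hy, ?_⟩
    rw [dist_eq_norm]; linarith
  exact (Set.disjoint_left.1 h h1) h2

lemma exists_pick {K : Set ℂ} (hK : KP K) {n : ℕ} {s : St} (h : Good K n s) :
    ∃ a d t, Pk K n s a d t := by
  have hc := h.compact hK.cpt hK.small'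
  obtain ⟨a, ha, hfar⟩ := hc.exists_isMaxOn (h.nonempty hK)
    (continuous_infDist_pt (s.A : Set ℂ)).continuousOn
  have hcs : IsCompact (sh K n) := hK.cpt.image (by fun_prop)
  have hd1 : Disjoint (Zs s.P s.Q K) (Zs s.P s.Q (sh K n)) := by
    rw [Set.disjoint_left]
    rintro z ⟨w, hw, hz⟩ ⟨_, ⟨v, hv, rfl⟩, hz'⟩
    have h1 : (w - (v + ((1 / 2 ^ (n + 6) : ℝ) : ℂ) * I)) * s.Q.eval z = 0 := by
      simp only [eval_sub, eval_mul, eval_C] at hz hz'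
      linear_combination hz' - hz
    rcases mul_eq_zero.1 h1 with h2 | h2
    · have h3 := congrArg Complex.im h2
      simp only [sub_im, add_im, mul_im, ofReal_re, ofReal_im, I_re, I_im, hK.real w hw,
        hK.real v hv, zero_im] at h3
      have h4 : (0 : ℝ) < 1 / 2 ^ (n + 6) := by positivity
      nlinarith
    · apply h.cop z h2
      simp only [eval_sub, eval_mul, eval_C, h2, mul_zero, sub_zero] at hz
      exact hz
  obtain ⟨t1, ht1, hs1⟩ := sep_of_compact hc (h.compact hcs (fun w hw => sh_small hK n hw)) hd1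
  obtain ⟨t2, ht2, hs2⟩ := sep_of_compact hc (isCompact_closedBall s.c s.ρ) h.dis
  obtain ⟨S, hS, ρ, hρ, hcov, hcard⟩ := h.cover hK (ε := 1 / 2 ^ n) (by positivity)
  set t := min (min t1 t2) (min (ρ / 4) (1 / 2 ^ (n + 6))) with ht
  have htp : 0 < t := by
    rw [ht]; positivity
  have ht_1 : t ≤ t1 := (min_le_left _ _).trans (min_le_left _ _)
  have ht_2 : t ≤ t2 := (min_le_left _ _).trans (min_le_right _ _)
  have ht_3 : t ≤ ρ / 4 := (min_le_right _ _).trans (min_le_left _ _)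
  have ht_4 : t ≤ 1 / 2 ^ (n + 6) := (min_le_right _ _).trans (min_le_right _ _)
  have hQa : s.Q.eval a ≠ 0 := by
    intro h0
    obtain ⟨w, hw, hz⟩ := ha
    apply h.cop a h0
    simpa [h0] using hz
  have hev : ∀ᶠ z in nhds a, ‖s.P.eval z‖ < 3 / 32 * ‖s.Q.eval z‖ := by
    have hcont : ContinuousAt (fun z => 3 / 32 * ‖s.Q.eval z‖ - ‖s.P.eval z‖) a := by
      apply Continuous.continuousAt; fun_prop
    have hpos : 0 < 3 / 32 * ‖s.Q.eval a‖ - ‖s.P.eval a‖ := by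
      obtain ⟨w, hw, hz⟩ := ha
      simp only [eval_sub, eval_mul, eval_C] at hz
      have : s.P.eval a = w * s.Q.eval a := by linear_combination hz
      rw [this, norm_mul]
      have h1 := hK.small w hw
      have h2 : 0 < ‖s.Q.eval a‖ := norm_pos_iff.2 hQa
      nlinarith
    filter_upwards [hcont.eventually (lt_mem_nhds hpos)] with z hz
    linarith
  obtain ⟨d1, hd1p, hd1⟩ := Metric.eventually_nhds_iff.1 hev
  set d := min (d1 / 2) (min s.T t / 2 ^ (n + 6)) with hd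
  have hTp := h.Tp
  have hdp : 0 < d := by rw [hd]; positivity
  refine ⟨a, d, t, ha, ?_, htp, ht_4, ?_, ?_, ⟨S, hS, ρ, by linarith, hcov, hcard⟩, hdp,
    min_le_right _ _, ?_⟩
  · intro y hy; exact hfar hy
  · intro x hx y hy
    have := hs1 x hx y hy
    linarith
  · intro x hx y hy
    have := hs2 x hx y hy
    linarith
  · intro z hz
    have h1 : dist z a < d1 := by
      rw [dist_eq_norm]
      have : d ≤ d1 / 2 := min_le_left _ _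
      linarith
    exact (hd1 h1).le

/-- every root of the new polynomial is near an old root or near the new pole -/
lemma root_step {K : Set ℂ} {n : ℕ} {s : St} (h : Good K n s) {a : ℂ} {d t : ℝ} (hd : 0 < d)
    {w z : ℂ} (hz1 : ‖z‖ ≤ 1)
    (hz : ((next n s a d t).P - C w * (next n s a d t).Q).eval z = 0) :
    ‖z - a‖ ≤ d ∨ ∃ x, (s.P - C w * s.Q).eval x = 0 ∧ ‖z - x‖ ≤ d := by
  by_contra hcon
  push Not at hcon
  obtain ⟨h1, h2⟩ := hcon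
  obtain ⟨x, hx, hxz⟩ := exists_root_near (h.mon w) (h.deg w) (by omega) z
  have h3 := h2 x hx
  have e : (z - a) * (s.P - C w * s.Q).eval z = - ((rr n d : ℝ) : ℂ) * s.Q.eval z := by
    simp only [next, eval_sub, eval_add, eval_mul, eval_C, eval_X] at hz ⊢
    linear_combination hz
  have e2 := congrArg norm e
  rw [norm_mul, norm_mul, norm_neg, norm_real, Real.norm_of_nonneg (rr_pos hd).le] at e2
  have h4 : rr n d * ‖s.Q.eval z‖ ≤ d ^ (n + 2) := by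
    calc rr n d * ‖s.Q.eval z‖ ≤ rr n d * 2 ^ n :=
          mul_le_mul_of_nonneg_left (h.bdQ z hz1) (rr_pos hd).le
      _ = d ^ (n + 2) := by unfold rr; field_simp
  have h5 : d ^ (n + 1) < ‖z - x‖ ^ (n + 1) := pow_lt_pow_left₀ h3 hd.le (by omega)
  have h6 : d * d ^ (n + 1) < ‖z - a‖ * ‖(s.P - C w * s.Q).eval z‖ := by
    apply mul_lt_mul'' h1 (h5.trans_le hxz) hd.le (by positivity)
  rw [e2] at h6
  have h7 : d * d ^ (n + 1) = d ^ (n + 2) := by ring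
  linarith

lemma pk_d_le {K : Set ℂ} {n : ℕ} {s : St} (h : Good K n s) {a : ℂ} {d t : ℝ}
    (hp : Pk K n s a d t) : d ≤ 1 / 2 ^ (n + 6) := by
  apply hp.ds.trans
  gcongr
  exact (min_le_left _ _).trans h.T1

lemma next_step {K : Set ℂ} {n : ℕ} {s : St} (h : Good K n s) {a : ℂ} {d t : ℝ}
    (hp : Pk K n s a d t) {S : Set ℂ} {z : ℂ} (hz1 : ‖z‖ ≤ 1)
    (hz : z ∈ Zs (next n s a d t).P (next n s a d t).Q K) :
    ∃ y ∈ Zs s.P s.Q K, ‖z - y‖ ≤ d := by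
  obtain ⟨w, hw, hz⟩ := hz
  rcases root_step h hp.dp hz1 hz with h1 | ⟨x, hx, h1⟩
  · exact ⟨a, hp.mem, h1⟩
  · exact ⟨x, ⟨w, hw, hx⟩, h1⟩

end Pool.Agent.Helper914.Iversen
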